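import Pool.Agent.Helper4.BT.Defs

namespace Pool.Helper4.BT
open MeasureTheory Metric Set Laplacian InnerProductSpace

/-- the source of the outer field of the second bubble, with the first bubble removed -/
noncomputable def q1 (R : ℝ) (p : E) (u : E → ℝ) (lam : ℝ) (mu : ℕ → ℝ) (z : ℕ → E)
    (sg : ℕ → ℝ) (ρ : ℝ) (y : E) : ℝ :=
  chi p (R / 2) y * (nl lam (u y) - sg 0 * U (mu 0) (z 0) y ^ 2) - chi (z 1) ρ y * nl lam (u y)

/-- outer region -/
def SS (R : ℝ) (p c : E) (ρ : ℝ) : Set E := ball p R \ ball c ρ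

end Pool.Helper4.BT
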