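import Pool.Agent.Helper4.BT.Defs
import Pool.Agent.Helper4.BT.Defs2
import Pool.Agent.Helper12.BT.LAP
import Pool.Agent.Helper12.BT.FEQ
import Pool.Agent.Helper12.BT.STEP2
import Pool.Agent.Helper62.BT.LAP2
import Pool.Agent.Helper62.BT.ER
import Pool.Agent.Helper83.BT.LMAX
import Pool.Agent.Helper83.BT.MV
import Pool.Agent.Helper83.BT.CHI
import Pool.Agent.Helper83.BT.POH
import Pool.Agent.Helper83.BT.IDN
import Pool.Agent.Helper81.BT.UINT
import Pool.Agent.Helper97.BT.Dich
import Pool.Agent.Helper82.BT.BAR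
import Pool.Agent.Helper82.BT.STEP1
import Pool.Agent.Helper17.BT.Kernel
import Pool.Agent.Helper26.BT.KER3
import Pool.Agent.Helper16.BT.KER4
import Pool.Agent.Helper16.BT.PROJ
import Pool.Agent.Helper92.BT.REP
import Pool.Agent.Helper92.BT.FE0
import Pool.Agent.Helper63.BT.RHO0
import Pool.Agent.Helper63.BT.RHO1
import Pool.Agent.Helper63.BT.BD0
import Pool.Agent.Helper63.BT.BD1
import Pool.Agent.Helper7.BT.JJa
import Pool.Agent.Helper7.BT.JJb
import Pool.Agent.Helper34.BT.SOB
import Pool.Agent.Helper22.BT.MASS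
import Pool.Agent.Helper22.BT.NECK
import Pool.Agent.Helper67.BT.FE1d
import Pool.Agent.Helper67.BT.DEQ
import Pool.Agent.Helper97.BT.FE1a
import Pool.Agent.Helper28.BT.FE1b
import Pool.Agent.Helper1.BT.FE1c
import Pool.Agent.Helper17.BT.FE01
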