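import Mathlib

/-!
# Bubble towers in dimension 6: common definitions

Everything takes place in `E = ℝ⁶`, where the critical exponent is `2* = 3`, the equation is
`-Δ u = lam u + |u| u` and the bubbles are `U μ z x = 24 μ² / (μ² + |x - z|²)²`.
-/

namespace Pool.Helper4.BT

open MeasureTheory Metric Set Laplacian InnerProductSpace

/-- Six dimensional Euclidean space. -/
abbrev E := EuclideanSpace ℝ (Fin 6)

/-- `μ² + |x - z|²`. -/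
noncomputable def A (μ : ℝ) (z x : E) : ℝ := μ ^ 2 + ‖x - z‖ ^ 2

/-- The bubble of centre `z` and scale `μ` in dimension six. -/
noncomputable def U (μ : ℝ) (z x : E) : ℝ := 24 * μ ^ 2 / A μ z x ^ 2

/-- The integral of the square of the standard bubble. -/
noncomputable def I0 : ℝ := ∫ y : E, U 1 0 y ^ 2

/-- A fixed smooth cutoff: `1` on the unit ball, `0` outside the ball of radius `2`. -/
noncomputable def bump0 : ContDiffBump (0 : E) := ⟨1, 2, one_pos, one_lt_two⟩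

/-- The cutoff rescaled: `1` on `closedBall z ρ`, `0` outside `ball z (2ρ)`. -/
noncomputable def chi (z : E) (ρ : ℝ) (x : E) : ℝ := bump0 (ρ⁻¹ • (x - z))

/-- The right hand side of the equation. -/
noncomputable def nl (lam s : ℝ) : ℝ := lam * s + |s| * s

/-- A primitive of the right hand side. -/
noncomputable def Gp (lam s : ℝ) : ℝ := lam * s ^ 2 / 2 + |s| ^ 3 / 3

/-- The constant of the fundamental solution. -/
noncomputable def cG : ℝ := (∫ y : E, 24 / (1 + ‖y‖ ^ 2) ^ 4)⁻¹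

/-- The fundamental solution of `-Δ` on `ℝ⁶`. -/
noncomputable def Gam (x : E) : ℝ := cG * (‖x‖ ^ 4)⁻¹

/-- The Newtonian potential. -/
noncomputable def N (f : E → ℝ) (x : E) : ℝ := ∫ y, Gam (x - y) * f y

/-- The Riesz type potential with kernel `|x - y|^{-m}` (used for nonnegative `f`). -/
noncomputable def J (m : ℕ) (f : E → ℝ) (x : E) : ENNReal :=
  ∫⁻ y, ENNReal.ofReal (f y / ‖x - y‖ ^ m)

/-- `u` solves the equation on the ball. -/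
def Sol (p : E) (R : ℝ) (lam : ℝ) (u : E → ℝ) : Prop :=
  ∀ y ∈ ball p R, -(Δ u) y = nl lam (u y)

/-- Sum of the bubbles with signs. -/
noncomputable def bubbles (k : ℕ) (sg mu : ℕ → ℝ) (z : ℕ → E) (x : E) : ℝ :=
  ∑ l ∈ Finset.range k, sg l * U (mu l) (z l) x

/-- The dichotomy: core point or neck point. -/
def Dich (k : ℕ) (K C1 : ℝ) (p : E) (R : ℝ) (lam : ℝ) (u : E → ℝ) (mu : ℕ → ℝ) (z : ℕ → E) :
    Prop :=
  ∀ x ∈ closedBall p R,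
    (∃ j < k, ‖x - z j‖ ≤ K * mu j ∧ |u x| ≤ C1 / mu j ^ 2) ∨
    (∃ l < k, mu l ≤ ‖x - z l‖ ∧ (|u x| + lam) * ‖x - z l‖ ^ 2 ≤ 1 / (256 * k))

/-- The exponent of the loss. -/
noncomputable def kap (k : ℕ) : ℝ := 1 / (32 * k)

/-- Distance scale of the pair `(l, j)`. -/
noncomputable def Dd (mu : ℕ → ℝ) (z : ℕ → E) (l j : ℕ) : ℝ := max ‖z l - z j‖ (mu j)

/-- The barrier of the bubble `j`. -/
noncomputable def Fj (k : ℕ) (mu : ℕ → ℝ) (z : ℕ → E) (j : ℕ) (x : E) : ℝ :=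
  Real.exp ((3 / 2) * Real.log (mu j) - (7 / 4) * Real.log (A (mu j) (z j) x) +
    (kap k / 2) * ∑ l ∈ (Finset.range k).erase j,
      (Real.log (A (mu l) (z l) x + Dd mu z l j ^ 2) - Real.log (A (mu l) (z l) x)))

/-- The barrier of the background. -/
noncomputable def F0 (k : ℕ) (mu : ℕ → ℝ) (z : ℕ → E) (x : E) : ℝ :=
  Real.exp ((kap k / 2) * ∑ l ∈ Finset.range k,
      (Real.log (A (mu l) (z l) x + 1) - Real.log (A (mu l) (z l) x)))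

/-- Distance scale of the first two bubbles. -/
noncomputable def DD (mu : ℕ → ℝ) (z : ℕ → E) : ℝ := √(mu 0 ^ 2 + ‖z 0 - z 1‖ ^ 2)

/-- The value of the first bubble at the centre of the second one. -/
noncomputable def tt (mu : ℕ → ℝ) (z : ℕ → E) : ℝ := U (mu 0) (z 0) (z 1)

/-- Configurations of the second half of the proof. -/
structure Conf (k : ℕ) (Λ R C3 τ ω : ℝ) (p : E) (u : E → ℝ) (lam : ℝ) (mu : ℕ → ℝ)
    (z : ℕ → E) (sg : ℕ → ℝ) : Prop where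
  hk : 2 ≤ k
  hR : 0 < R ∧ R ≤ 1
  hC3 : 1 ≤ C3
  hτ : 0 < τ ∧ τ ≤ 1 / 64
  hω : 0 < ω ∧ ω ≤ τ
  hωR : ω ≤ R / 64
  hlam : 0 ≤ lam ∧ lam ≤ Λ
  hu : ContDiff ℝ 2 u
  heq : Sol p R lam u
  hstar : ∀ x ∈ closedBall p R,
    |u x| ≤ C3 * (1 + ∑ l ∈ Finset.range k, U (mu l) (z l) x)
  hmu : ∀ l < k, 0 < mu l
  hmu0 : mu 0 ≤ ω
  hsep : ∀ l l', l < l' → l' < k → mu l' ≤ ω * mu l
  hz : ∀ l < k, ‖z l - p‖ ≤ ω
  hsg : ∀ l < k, sg l = 1 ∨ sg l = -1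
  hsg1 : sg 1 = -sg 0
  hcore : ∀ j < 2, ∫ x in closedBall (z j) (mu j / τ), (u x - bubbles k sg mu z x) ^ 2
    ≤ ω * mu j ^ 2

/-- The good radii around the second bubble. -/
structure Rho1 (k : ℕ) (τ : ℝ) (mu : ℕ → ℝ) (z : ℕ → E) (ρ : ℝ) : Prop where
  pos : 0 < ρ
  le : ρ ≤ τ * DD mu z
  up : DD mu z * ρ ^ 5 * (1 + tt mu z) ^ 2 ≤ τ * mu 1 ^ 2
  q1 : mu 1 ^ 4 ≤ τ * (1 + tt mu z) * ρ ^ 6
  q2 : DD mu z * mu 1 ^ 4 ≤ τ * (1 + tt mu z) * ρ ^ 7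
  q3 : ∀ l, 2 ≤ l → l < k → mu l ^ 2 ≤ τ * (1 + tt mu z) * ρ ^ 4
  q4 : ∀ l, 2 ≤ l → l < k → DD mu z * mu l ^ 2 ≤ τ * (1 + tt mu z) * ρ ^ 5
  q5 : mu 1 ^ 2 ≤ τ ^ 2 * ρ ^ 2
  q6 : DD mu z * mu 1 ^ 2 ≤ τ * ρ ^ 3
  gap : ∀ l, 2 ≤ l → l < k → ‖z l - z 1‖ ≤ ρ / 4 ∨ 8 * ρ ≤ ‖z l - z 1‖

/-- The good radii around the first bubble. -/
structure Rho0 (k : ℕ) (mu : ℕ → ℝ) (z : ℕ → E) (ρ : ℝ) : Prop where
  pos : 0 < ρ
  le : ρ ^ 2 ≤ mu 0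
  ge : mu 0 ≤ 32 ^ (2 * k) * ρ ^ 2
  gap : ∀ l, 1 ≤ l → l < k → ‖z l - z 0‖ ≤ ρ / 4 ∨ 8 * ρ ≤ ‖z l - z 0‖

/-- Data around one bubble: centre `c`, scale `μ`, radius `ρ`, size `T` of the background,
sign `σ`, and the smaller bubbles `l ∈ I` inside. -/
structure BD (k : ℕ) (Λ C τ : ℝ) (u : E → ℝ) (lam : ℝ) (c : E) (μ ρ T σ : ℝ)
    (I : Finset ℕ) (mu : ℕ → ℝ) (z : ℕ → E) : Prop where
  hI : I.card ≤ k
  hu : ContDiff ℝ 2 u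
  hlam : 0 ≤ lam ∧ lam ≤ Λ
  hτ : 0 < τ ∧ τ ≤ 1
  hμ : 0 < μ
  hρ : 0 < ρ ∧ ρ ≤ 1
  hT : 1 ≤ T
  hσ : σ = 1 ∨ σ = -1
  hin : ∀ l ∈ I, 0 < mu l ∧ mu l ≤ τ * μ ∧ ‖z l - c‖ ≤ ρ / 4
  bound : ∀ x ∈ closedBall c (2 * ρ), |u x| ≤ C * (T + U μ c x + ∑ l ∈ I, U (mu l) (z l) x)
  r1 : ρ ^ 6 * T ^ 2 ≤ τ * μ ^ 2
  r2 : μ ^ 2 ≤ τ ^ 2 * ρ ^ 2
  r3 : μ ^ 4 ≤ τ * T * ρ ^ 6
  core : ∫ x in closedBall c (μ / τ), (u x - σ * U μ c x) ^ 2 ≤ τ * μ ^ 2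

/-- The field created by everything outside the cutoff ball. -/
noncomputable def ee (u : E → ℝ) (lam : ℝ) (c : E) (ρ : ℝ) (x : E) : ℝ :=
  u x - N (fun y => chi c ρ y * nl lam (u y)) x

end Pool.Helper4.BT
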