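import Pool.Agent.Helper4.BT.Blk

namespace Pool.Helper4.BT
open MeasureTheory Metric Set Laplacian InnerProductSpace Filter Topology

theorem EB_U_nonneg (μ : ℝ) (z x : E) : 0 ≤ U μ z x := by unfold U A; positivity

theorem EB_cont_U {μ : ℝ} (hμ : 0 < μ) (z : E) : Continuous (U μ z) :=
  (contDiff_U hμ z (n := 0)).continuous

theorem EB_cont_chi (z : E) (ρ : ℝ) : Continuous (chi z ρ) := by
  have h2 : ContDiff ℝ ((1 : ℕ∞) : WithTop ℕ∞) (chi z ρ) := contDiff_chi z ρ
  exact h2.continuous

theorem EB_cont_bubbles {k : ℕ} {mu : ℕ → ℝ} (z : ℕ → E) (sg : ℕ → ℝ)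
    (hmu : ∀ l < k, 0 < mu l) : Continuous (bubbles k sg mu z) := by
  unfold bubbles
  apply continuous_finsetSum
  intro l hl
  exact continuous_const.mul (EB_cont_U (hmu l (Finset.mem_range.mp hl)) _)

theorem EB_vol (p : E) {R : ℝ} (hR : R ≤ 1) :
    (volume (closedBall p R)).toReal ≤ (volume (closedBall (0 : E) 1)).toReal := by
  apply ENNReal.toReal_mono
  · exact (isCompact_closedBall (0 : E) 1).measure_lt_top.ne
  · have h1 : volume (closedBall p R) ≤ volume (closedBall p 1) :=
      measure_mono (closedBall_subset_closedBall hR)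
    have h2 : volume (closedBall p (1 : ℝ)) = volume (closedBall (0 : E) 1) :=
      Measure.addHaar_closedBall_center volume p 1
    rwa [h2] at h1

theorem EB_int_U {μ : ℝ} (hμ : 0 < μ) (hμ1 : μ ≤ 1) (z p : E) {R : ℝ} (hR : R ≤ 1) :
    ∫ x in closedBall p R, U μ z x ≤ (volume (closedBall (0 : E) 1)).toReal + I0 := by
  have hK : IsCompact (closedBall p R) := isCompact_closedBall p R
  have h1 : IntegrableOn (fun x => U μ z x) (closedBall p R) :=
    (EB_cont_U hμ z).continuousOn.integrableOn_compact hK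
  obtain ⟨hi, hv⟩ := integral_U_sq hμ z
  have h2 : IntegrableOn (fun x => 1 + U μ z x ^ 2) (closedBall p R) :=
    (continuous_const.add ((EB_cont_U hμ z).pow 2)).continuousOn.integrableOn_compact hK
  calc ∫ x in closedBall p R, U μ z x ≤ ∫ x in closedBall p R, (1 + U μ z x ^ 2) := by
        apply setIntegral_mono_on h1 h2 measurableSet_closedBall
        intro x _
        nlinarith [sq_nonneg (U μ z x - 1), EB_U_nonneg μ z x]
    _ = (∫ x in closedBall p R, (1 : ℝ)) + ∫ x in closedBall p R, U μ z x ^ 2 := by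
        apply integral_add
        · exact (continuous_const.continuousOn).integrableOn_compact hK
        · exact hi.integrableOn
    _ ≤ (volume (closedBall (0 : E) 1)).toReal + I0 := by
        apply add_le_add
        · rw [setIntegral_const, smul_eq_mul, mul_one]
          exact EB_vol p hR
        · calc ∫ x in closedBall p R, U μ z x ^ 2 ≤ ∫ x, U μ z x ^ 2 := by
                apply setIntegral_le_integral hi
                exact Eventually.of_forall (fun x => by positivity)
            _ = I0 * μ ^ 2 := hv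
            _ ≤ I0 * 1 := by
                apply mul_le_mul_of_nonneg_left _ I0_pos.le
                nlinarith
            _ = I0 := mul_one _

/-- `∫ |u|` and `∫ |u - sg 0 U₀|` are bounded. -/
theorem EB_int_u (k : ℕ) (Λ R C3 : ℝ) : ∃ C : ℝ, 0 < C ∧ ∀ (τ ω : ℝ) (p : E) (u : E → ℝ)
    (lam : ℝ) (mu : ℕ → ℝ) (z : ℕ → E) (sg : ℕ → ℝ), Conf k Λ R C3 τ ω p u lam mu z sg →
    (∫ x in closedBall p R, |u x|) ≤ C ∧
    (∫ x in closedBall p R, |u x - sg 0 * U (mu 0) (z 0) x|) ≤ C := by
  set V := (volume (closedBall (0 : E) 1)).toReal with hV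
  have hV0 : 0 ≤ V := ENNReal.toReal_nonneg
  have hI0 := I0_pos
  refine ⟨(|C3| + 1) * (V + (k + 1) * (V + I0)) + 1, by positivity, ?_⟩
  intro τ ω p u lam mu z sg hc
  have hK : IsCompact (closedBall p R) := isCompact_closedBall p R
  have hk2 := hc.hk
  have hmu1 : ∀ l < k, mu l ≤ 1 := by
    intro l hl
    have h0 : mu 0 ≤ 1 := by
      have := hc.hmu0; have := hc.hωR; have := hc.hR.2; linarith
    rcases Nat.eq_zero_or_pos l with h | h
    · rw [h]; exact h0
    · have h1 := hc.hsep 0 l h hl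
      have h2 := hc.hω
      have h3 := hc.hτ
      have h4 : 0 < mu 0 := hc.hmu 0 (by omega)
      nlinarith
  have hcs : Continuous (fun x => C3 * (1 + ∑ l ∈ Finset.range k, U (mu l) (z l) x)) := by
    apply continuous_const.mul
    apply continuous_const.add
    apply continuous_finsetSum
    intro l hl
    exact EB_cont_U (hc.hmu l (Finset.mem_range.mp hl)) _
  have hui : IntegrableOn (fun x => |u x|) (closedBall p R) :=
    (hc.hu.continuous.abs).continuousOn.integrableOn_compact hK
  have h1 : ∫ x in closedBall p R, |u x| ≤ |C3| * (V + k * (V + I0)) := by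
    calc ∫ x in closedBall p R, |u x|
        ≤ ∫ x in closedBall p R, C3 * (1 + ∑ l ∈ Finset.range k, U (mu l) (z l) x) := by
          apply setIntegral_mono_on hui (hcs.continuousOn.integrableOn_compact hK)
            measurableSet_closedBall
          intro x hx
          exact hc.hstar x hx
      _ = C3 * ((∫ x in closedBall p R, (1 : ℝ))
          + ∑ l ∈ Finset.range k, ∫ x in closedBall p R, U (mu l) (z l) x) := by
          rw [integral_const_mul, integral_add, integral_finsetSum]
          · intro l hl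
            exact (EB_cont_U (hc.hmu l (Finset.mem_range.mp hl)) _).continuousOn.integrableOn_compact hK
          · exact (continuous_const.continuousOn).integrableOn_compact hK
          · apply integrable_finsetSum
            intro l hl
            exact (EB_cont_U (hc.hmu l (Finset.mem_range.mp hl)) _).continuousOn.integrableOn_compact hK
      _ ≤ |C3| * ((∫ x in closedBall p R, (1 : ℝ))
          + ∑ l ∈ Finset.range k, ∫ x in closedBall p R, U (mu l) (z l) x) := by
          apply mul_le_mul_of_nonneg_right (le_abs_self _)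
          apply add_nonneg
          · exact setIntegral_nonneg measurableSet_closedBall (fun _ _ => zero_le_one)
          · apply Finset.sum_nonneg
            intro l _
            exact setIntegral_nonneg measurableSet_closedBall (fun x _ => EB_U_nonneg _ _ _)
      _ ≤ |C3| * (V + k * (V + I0)) := by
          apply mul_le_mul_of_nonneg_left _ (abs_nonneg _)
          apply add_le_add
          · rw [setIntegral_const, smul_eq_mul, mul_one]
            exact EB_vol p hc.hR.2
          · calc ∑ l ∈ Finset.range k, ∫ x in closedBall p R, U (mu l) (z l) x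
                ≤ ∑ l ∈ Finset.range k, (V + I0) := by
                  apply Finset.sum_le_sum
                  intro l hl
                  exact EB_int_U (hc.hmu l (Finset.mem_range.mp hl))
                    (hmu1 l (Finset.mem_range.mp hl)) _ _ hc.hR.2
              _ = k * (V + I0) := by rw [Finset.sum_const, Finset.card_range, nsmul_eq_mul]
  have hC3 := abs_nonneg C3
  have hk0 : (0 : ℝ) ≤ k := Nat.cast_nonneg k
  have hVI : 0 ≤ V + I0 := by linarith
  constructor
  · refine le_trans h1 ?_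
    have e : (|C3| + 1) * (V + (k + 1) * (V + I0)) + 1
        = |C3| * (V + k * (V + I0)) + (|C3| * (V + I0) + (V + (k + 1) * (V + I0)) + 1) := by ring
    rw [e]
    have : 0 ≤ |C3| * (V + I0) + (V + (k + 1) * (V + I0)) + 1 := by positivity
    linarith
  · have hU0c := EB_cont_U (hc.hmu 0 (by omega)) (z 0)
    have hU0 := EB_int_U (hc.hmu 0 (by omega)) (hmu1 0 (by omega)) (z 0) p hc.hR.2
    have hU0i : IntegrableOn (fun x => U (mu 0) (z 0) x) (closedBall p R) :=
      hU0c.continuousOn.integrableOn_compact hK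
    have h2 : ∫ x in closedBall p R, |u x - sg 0 * U (mu 0) (z 0) x|
        ≤ (∫ x in closedBall p R, |u x|) + ∫ x in closedBall p R, U (mu 0) (z 0) x := by
      rw [← integral_add hui hU0i]
      apply setIntegral_mono_on _ (hui.add hU0i) measurableSet_closedBall
      · intro x _
        have hs : |sg 0| = 1 := by rcases hc.hsg 0 (by omega) with h | h <;> rw [h] <;> norm_num
        calc |u x - sg 0 * U (mu 0) (z 0) x| ≤ |u x| + |sg 0 * U (mu 0) (z 0) x| := abs_sub _ _
          _ = |u x| + U (mu 0) (z 0) x := by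
              rw [abs_mul, hs, one_mul, abs_of_nonneg (EB_U_nonneg _ _ _)]
      · exact ((hc.hu.continuous.sub (continuous_const.mul hU0c)).abs).continuousOn.integrableOn_compact hK
    have e : (|C3| + 1) * (V + (k + 1) * (V + I0)) + 1
        = |C3| * (V + k * (V + I0)) + (V + I0)
          + (|C3| * (V + I0) + (V + k * (V + I0)) + 1) := by ring
    rw [e]
    have : 0 ≤ |C3| * (V + I0) + (V + k * (V + I0)) + 1 := by positivity
    linarith


theorem EB_meas_SS (R : ℝ) (p c : E) (ρ : ℝ) : MeasurableSet (SS R p c ρ) :=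
  measurableSet_ball.diff measurableSet_ball

theorem fe1 : ∀ (k : ℕ) (Λ R C3 : ℝ), ∃ C : ℝ, 0 < C ∧ ∀ τ : ℝ, 0 < τ → τ ≤ 1 / 64 →
    ∃ ω0 : ℝ, 0 < ω0 ∧ ∀ (ω : ℝ) (p : E) (u : E → ℝ) (lam : ℝ) (mu : ℕ → ℝ) (z : ℕ → E)
      (sg : ℕ → ℝ) (ρ : ℝ), ω ≤ ω0 → Conf k Λ R C3 τ ω p u lam mu z sg → Rho1 k τ mu z ρ →
      ∀ x ∈ closedBall (z 1) (2 * ρ),
      J 4 (fun y => |q1 R p u lam mu z sg ρ y|) x ≤ ENNReal.ofReal (C * (1 + τ * tt mu z)) ∧
      J 5 (fun y => |q1 R p u lam mu z sg ρ y|) x
        ≤ ENNReal.ofReal (C * (τ * (1 + tt mu z) + (mu 0 / DD mu z) ^ 2) / DD mu z) := by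
  intro k Λ R C3
  obtain ⟨Cq, hCq, hq⟩ := q1_le k Λ R C3
  obtain ⟨Ca, hCa, ha⟩ := fe1_a k Λ R C3
  obtain ⟨Cb, hCb, hb⟩ := fe1_b k Λ R C3
  obtain ⟨Cc, hCc, hcc⟩ := fe1_c k Λ R C3
  obtain ⟨Cd, hCd, hd⟩ := fe1_d k Λ R C3
  refine ⟨Cq * (Ca + Cb + Cc + Cd), by positivity, ?_⟩
  intro τ hτ0 hτ1
  obtain ⟨w1, hw1, ha'⟩ := ha τ hτ0 hτ1
  obtain ⟨w2, hw2, hb'⟩ := hb τ hτ0 hτ1
  obtain ⟨w3, hw3, hc'⟩ := hcc τ hτ0 hτ1
  refine ⟨min w1 (min w2 w3), by positivity, ?_⟩
  intro ω p u lam mu z sg ρ hω hc hr x hx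
  have hω1 : ω ≤ w1 := le_trans hω (min_le_left _ _)
  have hω2 : ω ≤ w2 := le_trans hω (le_trans (min_le_right _ _) (min_le_left _ _))
  have hω3 : ω ≤ w3 := le_trans hω (le_trans (min_le_right _ _) (min_le_right _ _))
  obtain ⟨a4, a5⟩ := ha' ω p u lam mu z sg ρ hω1 hc hr x hx
  obtain ⟨b4, b5⟩ := hb' ω p u lam mu z sg ρ hω2 hc hr x hx
  obtain ⟨c4, c5⟩ := hc' ω p u lam mu z sg ρ hω3 hc hr x hx
  obtain ⟨d4, d5⟩ := hd τ hτ0 hτ1 ω p u lam mu z sg ρ hc hr x hx
  have hk2 := hc.hk
  have hmu0 : 0 < mu 0 := hc.hmu 0 (by omega)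
  have hD : 0 < DD mu z := by unfold DD; positivity
  have ht : 0 ≤ tt mu z := EB_U_nonneg _ _ _
  set f1 : E → ℝ := (SS R p (z 1) ρ).indicator (fun y => 1 + ∑ l ∈ Finset.range k, U (mu l) (z l) y
          + ∑ l ∈ Finset.Ico 1 k, U (mu l) (z l) y ^ 2) with hf1
  set f2 : E → ℝ := (SS R p (z 1) ρ).indicator (fun y =>
            U (mu 0) (z 0) y * ∑ l ∈ Finset.Ico 1 k, U (mu l) (z l) y) with hf2
  set f3 : E → ℝ := (SS R p (z 1) ρ).indicator (fun y =>
            U (mu 0) (z 0) y * |u y - bubbles k sg mu z y|) with hf3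
  set f4 : E → ℝ := (closedBall (z 1) (2 * ρ)).indicator (fun y => U (mu 0) (z 0) y ^ 2) with hf4
  have hU0c := EB_cont_U hmu0 (z 0)
  have hsum : Continuous (fun y => ∑ l ∈ Finset.Ico 1 k, U (mu l) (z l) y) := by
    apply continuous_finsetSum
    intro l hl
    exact EB_cont_U (hc.hmu l (Finset.mem_Ico.mp hl).2) _
  have m2 : Measurable f2 := (hU0c.mul hsum).measurable.indicator (EB_meas_SS _ _ _ _)
  have m3 : Measurable f3 := (hU0c.mul ((hc.hu.continuous.sub
    (EB_cont_bubbles z sg hc.hmu)).abs)).measurable.indicator (EB_meas_SS _ _ _ _)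
  have m4 : Measurable f4 := (hU0c.pow 2).measurable.indicator measurableSet_closedBall
  have hJ : ∀ m : ℕ, J m (fun y => |q1 R p u lam mu z sg ρ y|) x
      ≤ ENNReal.ofReal Cq * (J m f1 x + J m f2 x + J m f3 x + J m f4 x) := by
    intro m
    calc J m (fun y => |q1 R p u lam mu z sg ρ y|) x
        ≤ J m (fun y => Cq * (f1 y + f2 y + f3 y + f4 y)) x :=
          J_mono (fun y => hq τ ω p u lam mu z sg ρ hc hr y) x
      _ = ENNReal.ofReal Cq * J m (fun y => f1 y + f2 y + f3 y + f4 y) x :=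
          J_const_mul Cq hCq.le _ x
      _ ≤ ENNReal.ofReal Cq * (J m f1 x + J m f2 x + J m f3 x + J m f4 x) := by
          gcongr
          refine le_trans (J_add_le _ f4 m4 x) ?_
          gcongr
          refine le_trans (J_add_le _ f3 m3 x) ?_
          gcongr
          exact J_add_le _ f2 m2 x
  constructor
  · refine le_trans (hJ 4) ?_
    have h1 : J 4 f1 x + J 4 f2 x + J 4 f3 x + J 4 f4 x
        ≤ ENNReal.ofReal (Ca * (1 + τ * tt mu z)) + ENNReal.ofReal (Cb * τ * tt mu z)
          + ENNReal.ofReal (Cc * (1 + τ * tt mu z)) + ENNReal.ofReal (Cd * τ * tt mu z) := by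
      gcongr
    refine le_trans (mul_le_mul_right h1 _) ?_
    rw [← ENNReal.ofReal_add (by positivity) (by positivity),
      ← ENNReal.ofReal_add (by positivity) (by positivity),
      ← ENNReal.ofReal_add (by positivity) (by positivity), ← ENNReal.ofReal_mul hCq.le]
    apply ENNReal.ofReal_le_ofReal
    rw [mul_assoc Cq (Ca + Cb + Cc + Cd)]
    apply mul_le_mul_of_nonneg_left _ hCq.le
    have e : (Ca + Cb + Cc + Cd) * (1 + τ * tt mu z) = Ca * (1 + τ * tt mu z) + Cb * τ * tt mu z
          + Cc * (1 + τ * tt mu z) + Cd * τ * tt mu z + (Cb + Cd) := by ring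
    rw [e]; linarith
  · refine le_trans (hJ 5) ?_
    have h1 : J 5 f1 x + J 5 f2 x + J 5 f3 x + J 5 f4 x
        ≤ ENNReal.ofReal (Ca * (τ * (1 + tt mu z) + (mu 0 / DD mu z) ^ 2) / DD mu z)
          + ENNReal.ofReal (Cb * τ * tt mu z / DD mu z)
          + ENNReal.ofReal (Cc * (τ * tt mu z + (mu 0 / DD mu z) ^ 2) / DD mu z)
          + ENNReal.ofReal (Cd * τ * tt mu z / DD mu z) := by
      gcongr
    refine le_trans (mul_le_mul_right h1 _) ?_
    rw [← ENNReal.ofReal_add (by positivity) (by positivity),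
      ← ENNReal.ofReal_add (by positivity) (by positivity),
      ← ENNReal.ofReal_add (by positivity) (by positivity), ← ENNReal.ofReal_mul hCq.le]
    apply ENNReal.ofReal_le_ofReal
    rw [← add_div, ← add_div, ← add_div, mul_div_assoc', mul_assoc Cq (Ca + Cb + Cc + Cd)]
    apply div_le_div_of_nonneg_right _ hD.le
    apply mul_le_mul_of_nonneg_left _ hCq.le
    have e : (Ca + Cb + Cc + Cd) * (τ * (1 + tt mu z) + (mu 0 / DD mu z) ^ 2)
        = Ca * (τ * (1 + tt mu z) + (mu 0 / DD mu z) ^ 2) + Cb * τ * tt mu z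
          + Cc * (τ * tt mu z + (mu 0 / DD mu z) ^ 2) + Cd * τ * tt mu z
          + (Cb * (τ + (mu 0 / DD mu z) ^ 2) + Cc * τ + Cd * (τ + (mu 0 / DD mu z) ^ 2)) := by
      ring
    rw [e]
    have : 0 ≤ Cb * (τ + (mu 0 / DD mu z) ^ 2) + Cc * τ + Cd * (τ + (mu 0 / DD mu z) ^ 2) := by
      positivity
    linarith

end Pool.Helper4.BT
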