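import Pool.Agent.Helper4.BT.EB

namespace Pool.Helper4.BT
open MeasureTheory Metric Set Laplacian InnerProductSpace Filter Topology

theorem EB_DD_le {k : ℕ} {Λ R C3 τ ω : ℝ} {p : E} {u : E → ℝ} {lam : ℝ} {mu : ℕ → ℝ}
    {z : ℕ → E} {sg : ℕ → ℝ} (hc : Conf k Λ R C3 τ ω p u lam mu z sg) :
    0 < DD mu z ∧ DD mu z ≤ 3 * ω ∧ mu 0 ≤ DD mu z ∧ ‖z 0 - z 1‖ ≤ 2 * ω := by
  have hk := hc.hk
  have hmu0 : 0 < mu 0 := hc.hmu 0 (by omega)
  have h0 := hc.hz 0 (by omega)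
  have h1 := hc.hz 1 (by omega)
  have hω := hc.hω.1
  have hd : ‖z 0 - z 1‖ ≤ 2 * ω := by
    have : z 0 - z 1 = (z 0 - p) - (z 1 - p) := by abel
    rw [this]; exact le_trans (norm_sub_le _ _) (by linarith)
  refine ⟨by unfold DD; positivity, ?_, ?_, hd⟩
  · unfold DD
    rw [show (3 : ℝ) * ω = √((3 * ω) ^ 2) from (Real.sqrt_sq (by positivity)).symm]
    apply Real.sqrt_le_sqrt
    have := hc.hmu0
    nlinarith [norm_nonneg (z 0 - z 1)]
  · unfold DD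
    apply Real.le_sqrt_of_sq_le
    nlinarith [sq_nonneg ‖z 0 - z 1‖]

theorem EB_ball1 {k : ℕ} {Λ R C3 τ ω : ℝ} {p : E} {u : E → ℝ} {lam : ℝ} {mu : ℕ → ℝ}
    {z : ℕ → E} {sg : ℕ → ℝ} {ρ : ℝ} (hc : Conf k Λ R C3 τ ω p u lam mu z sg)
    (hr : Rho1 k τ mu z ρ) : closedBall (z 1) (2 * ρ) ⊆ ball p (R / 4) := by
  obtain ⟨hD, hD3, _, _⟩ := EB_DD_le hc
  have h1 := hc.hz 1 (by have := hc.hk; omega)
  have hω := hc.hω
  have hωR := hc.hωR
  have hτ := hc.hτ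
  have hρ : ρ ≤ 1 / 64 * (3 * ω) := by
    refine le_trans hr.le ?_
    apply mul_le_mul hτ.2 hD3 hD.le (by norm_num)
  intro x hx
  rw [mem_closedBall, dist_eq_norm] at hx
  rw [mem_ball, dist_eq_norm]
  have : x - p = (x - z 1) + (z 1 - p) := by abel
  rw [this]
  refine lt_of_le_of_lt (norm_add_le _ _) ?_
  have := hc.hR.1
  linarith

theorem EB_ball0 {k : ℕ} {Λ R C3 τ ω : ℝ} {p : E} {u : E → ℝ} {lam : ℝ} {mu : ℕ → ℝ}
    {z : ℕ → E} {sg : ℕ → ℝ} {ρ : ℝ} (hc : Conf k Λ R C3 τ ω p u lam mu z sg)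
    (hr : Rho0 k mu z ρ) (hωR2 : ω ≤ (R / 64) ^ 2) :
    closedBall (z 0) (2 * ρ) ⊆ ball p (R / 4) ∧ ρ ≤ R / 64 := by
  have h1 := hc.hz 0 (by have := hc.hk; omega)
  have hωR := hc.hωR
  have hR := hc.hR.1
  have hρ : ρ ≤ R / 64 := by
    have h2 : ρ ^ 2 ≤ (R / 64) ^ 2 := le_trans hr.le (le_trans hc.hmu0 hωR2)
    exact (pow_le_pow_iff_left₀ hr.pos.le (by positivity) (by norm_num)).mp h2
  refine ⟨?_, hρ⟩
  intro x hx
  rw [mem_closedBall, dist_eq_norm] at hx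
  rw [mem_ball, dist_eq_norm]
  have : x - p = (x - z 0) + (z 0 - p) := by abel
  rw [this]
  refine lt_of_le_of_lt (norm_add_le _ _) ?_
  linarith

/-- `chi * nl` is `C¹` with compact support -/
theorem EB_chi_nl {u : E → ℝ} (hu : ContDiff ℝ 2 u) (lam : ℝ) (c : E) {ρ : ℝ} (hρ : 0 < ρ) :
    ContDiff ℝ 1 (fun y => chi c ρ y * nl lam (u y)) ∧
    HasCompactSupport (fun y => chi c ρ y * nl lam (u y)) := by
  have h2 : ContDiff ℝ ((1 : ℕ∞) : WithTop ℕ∞) (chi c ρ) := contDiff_chi c ρ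
  exact ⟨h2.mul (contDiff_nl lam u hu), (hasCompactSupport_chi c hρ).mul_right⟩

theorem EB_N_sub {f g : E → ℝ} (hf : Continuous f) (hfc : HasCompactSupport f)
    (hg : Continuous g) (hgc : HasCompactSupport g) (x : E) :
    N (fun y => f y - g y) x = N f x - N g x := by
  unfold N
  rw [← integral_sub (KER.integrable_kernel_mul KER.locallyIntegrable_Gam x hf hfc)
    (KER.integrable_kernel_mul KER.locallyIntegrable_Gam x hg hgc)]
  congr 1
  ext y
  ring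

/-- Representation of the outer field of the second bubble. -/
theorem EB_repr1 (R : ℝ) (hR : 0 < R) : ∃ C : ℝ, 0 < C ∧ ∀ (k : ℕ) (Λ C3 τ ω : ℝ) (p : E)
    (u : E → ℝ) (lam : ℝ) (mu : ℕ → ℝ) (z : ℕ → E) (sg : ℕ → ℝ) (ρ : ℝ),
    Conf k Λ R C3 τ ω p u lam mu z sg → Rho1 k τ mu z ρ → ∃ h : E → ℝ,
      (∀ x ∈ ball p (R / 4), ee u lam (z 1) ρ x = sg 0 * U (mu 0) (z 0) x
        + N (q1 R p u lam mu z sg ρ) x + h x) ∧
      ∀ x ∈ ball p (R / 4), DifferentiableAt ℝ h x ∧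
        |h x| ≤ C * ∫ y in closedBall p R, |u y - sg 0 * U (mu 0) (z 0) y| ∧
        ‖fderiv ℝ h x‖ ≤ C * ∫ y in closedBall p R, |u y - sg 0 * U (mu 0) (z 0) y| := by
  obtain ⟨C, hC, hrep⟩ := repr R hR
  refine ⟨C, hC, ?_⟩
  intro k Λ C3 τ ω p u lam mu z sg ρ hc hr
  have hk := hc.hk
  have hmu0 : 0 < mu 0 := hc.hmu 0 (by omega)
  have hUd : ContDiff ℝ 2 (fun y => sg 0 * U (mu 0) (z 0) y) :=
    contDiff_const.mul (contDiff_U hmu0 (z 0))
  have hψ : ContDiff ℝ 2 (fun y => u y - sg 0 * U (mu 0) (z 0) y) := hc.hu.sub hUd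
  obtain ⟨h, h1, h2⟩ := hrep p _ hψ
  refine ⟨h, ?_, h2⟩
  intro x hx
  have hlap : (fun y => chi p (R / 2) y * (-(Δ (fun y => u y - sg 0 * U (mu 0) (z 0) y)) y))
      = fun y => chi p (R / 2) y * (nl lam (u y) - sg 0 * U (mu 0) (z 0) y ^ 2) := by
    ext y
    by_cases hy : y ∈ ball p R
    · have e1 : (Δ (fun y => u y - sg 0 * U (mu 0) (z 0) y)) y
          = (Δ u) y - sg 0 * (Δ (U (mu 0) (z 0))) y := by
        have e2 : (fun y => u y - sg 0 * U (mu 0) (z 0) y) = u - (sg 0 • U (mu 0) (z 0)) := by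
          ext y; simp
        have e4 : ContDiffAt ℝ 2 (sg 0 • U (mu 0) (z 0)) y :=
          ((contDiff_U hmu0 (z 0)).contDiffAt).const_smul (sg 0)
        rw [e2, ContDiffAt.laplacian_sub hc.hu.contDiffAt e4,
          laplacian_smul (sg 0) (contDiff_U hmu0 (z 0)).contDiffAt]
        simp
      rw [e1, lap_U hmu0]
      have e3 := hc.heq y hy
      have : -((Δ u) y - sg 0 * -(U (mu 0) (z 0) y) ^ 2)
          = -(Δ u) y - sg 0 * U (mu 0) (z 0) y ^ 2 := by ring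
      rw [this, e3]
    · have : chi p (R / 2) y = 0 := by
        apply chi_eq_zero (by positivity)
        rw [mem_ball, dist_eq_norm] at hy
        linarith
      rw [this]; ring
  have h3 := h1 x hx
  rw [hlap] at h3
  obtain ⟨hf, hfc⟩ := EB_chi_nl hc.hu lam (z 1) hr.pos
  have hg : Continuous (fun y => chi p (R / 2) y * (nl lam (u y) - sg 0 * U (mu 0) (z 0) y ^ 2)) := by
    apply (EB_cont_chi _ _).mul
    exact ((contDiff_nl lam u hc.hu).continuous).sub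
      (continuous_const.mul ((EB_cont_U hmu0 _).pow 2))
  have hgc : HasCompactSupport
      (fun y => chi p (R / 2) y * (nl lam (u y) - sg 0 * U (mu 0) (z 0) y ^ 2)) :=
    (hasCompactSupport_chi p (by positivity)).mul_right
  have h4 : N (q1 R p u lam mu z sg ρ) x
      = N (fun y => chi p (R / 2) y * (nl lam (u y) - sg 0 * U (mu 0) (z 0) y ^ 2)) x
        - N (fun y => chi (z 1) ρ y * nl lam (u y)) x := by
    rw [← EB_N_sub hg hgc hf.continuous hfc]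
    rfl
  unfold ee
  rw [h4]
  have h5 : u x = sg 0 * U (mu 0) (z 0) x
      + N (fun y => chi p (R / 2) y * (nl lam (u y) - sg 0 * U (mu 0) (z 0) y ^ 2)) x + h x := by
    linarith
  linarith

/-- Representation of the outer field of a bubble, without removing anything. -/
theorem EB_repr0 (R : ℝ) (hR : 0 < R) : ∃ C : ℝ, 0 < C ∧ ∀ (k : ℕ) (Λ C3 τ ω : ℝ) (p : E)
    (u : E → ℝ) (lam : ℝ) (mu : ℕ → ℝ) (z : ℕ → E) (sg : ℕ → ℝ),
    Conf k Λ R C3 τ ω p u lam mu z sg → ∃ h : E → ℝ,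
      (∀ (c : E) (ρ : ℝ), 0 < ρ → ∀ x ∈ ball p (R / 4), ee u lam c ρ x =
        N (fun y => (chi p (R / 2) y - chi c ρ y) * nl lam (u y)) x + h x) ∧
      ∀ x ∈ ball p (R / 4), DifferentiableAt ℝ h x ∧
        |h x| ≤ C * ∫ y in closedBall p R, |u y| ∧
        ‖fderiv ℝ h x‖ ≤ C * ∫ y in closedBall p R, |u y| := by
  obtain ⟨C, hC, hrep⟩ := repr R hR
  refine ⟨C, hC, ?_⟩
  intro k Λ C3 τ ω p u lam mu z sg hc
  obtain ⟨h, h1, h2⟩ := hrep p _ hc.hu
  refine ⟨h, ?_, h2⟩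
  intro c ρ hρ x hx
  have hlap : (fun y => chi p (R / 2) y * (-(Δ u) y))
      = fun y => chi p (R / 2) y * nl lam (u y) := by
    ext y
    by_cases hy : y ∈ ball p R
    · rw [hc.heq y hy]
    · have : chi p (R / 2) y = 0 := by
        apply chi_eq_zero (by positivity)
        rw [mem_ball, dist_eq_norm] at hy
        linarith
      rw [this]; ring
  have h3 := h1 x hx
  rw [hlap] at h3
  obtain ⟨hf, hfc⟩ := EB_chi_nl hc.hu lam c hρ
  obtain ⟨hg, hgc⟩ := EB_chi_nl hc.hu lam p (show 0 < R / 2 by positivity)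
  have h4 : N (fun y => (chi p (R / 2) y - chi c ρ y) * nl lam (u y)) x
      = N (fun y => chi p (R / 2) y * nl lam (u y)) x
        - N (fun y => chi c ρ y * nl lam (u y)) x := by
    rw [← EB_N_sub hg.continuous hgc hf.continuous hfc]
    congr 1
    ext y
    ring
  unfold ee
  rw [h4]
  linarith

end Pool.Helper4.BT
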