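import Pool.Agent.Helper4.BT.EB2

namespace Pool.Helper4.BT
open MeasureTheory Metric Set Laplacian InnerProductSpace Filter Topology

theorem EB_toReal {a : ENNReal} {b : ℝ} (h : a ≤ ENNReal.ofReal b) (hb : 0 ≤ b) :
    a.toReal ≤ b := ENNReal.toReal_le_of_le_ofReal hb h

theorem EB_q1_C1 {k : ℕ} {Λ R C3 τ ω : ℝ} {p : E} {u : E → ℝ} {lam : ℝ} {mu : ℕ → ℝ}
    {z : ℕ → E} {sg : ℕ → ℝ} {ρ : ℝ} (hc : Conf k Λ R C3 τ ω p u lam mu z sg)
    (hr : Rho1 k τ mu z ρ) : ContDiff ℝ 1 (q1 R p u lam mu z sg ρ) ∧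
    HasCompactSupport (q1 R p u lam mu z sg ρ) := by
  have hk := hc.hk
  have hR := hc.hR.1
  have hmu0 : 0 < mu 0 := hc.hmu 0 (by omega)
  obtain ⟨hf, hfc⟩ := EB_chi_nl hc.hu lam (z 1) hr.pos
  have hchi : ContDiff ℝ ((1 : ℕ∞) : WithTop ℕ∞) (chi p (R / 2)) := contDiff_chi p (R / 2)
  have hg : ContDiff ℝ 1
      (fun y => chi p (R / 2) y * (nl lam (u y) - sg 0 * U (mu 0) (z 0) y ^ 2)) := by
    apply ContDiff.mul hchi
    exact (contDiff_nl lam u hc.hu).sub (contDiff_const.mul ((contDiff_U hmu0 _).pow 2))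
  have hgc : HasCompactSupport
      (fun y => chi p (R / 2) y * (nl lam (u y) - sg 0 * U (mu 0) (z 0) y ^ 2)) :=
    (hasCompactSupport_chi p (by positivity)).mul_right
  exact ⟨hg.sub hf, hgc.sub hfc⟩

theorem EB_fderiv_U_le {μ : ℝ} (hμ : 0 < μ) (z x : E) :
    ‖fderiv ℝ (U μ z) x‖ ≤ 4 * U μ z x / √(A μ z x) := by
  have hA := A_pos hμ z x
  have hs : 0 < √(A μ z x) := Real.sqrt_pos.mpr hA
  apply ContinuousLinearMap.opNorm_le_bound _ (div_nonneg (mul_nonneg (by norm_num)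
    (EB_U_nonneg _ _ _)) hs.le)
  intro v
  have h := fderiv_comp_A (fun a => 24 * μ ^ 2 / a ^ 2) μ z x v (by
    apply DifferentiableAt.div (differentiableAt_const _) (by fun_prop)
    positivity)
  have h1 : (fun y => (fun a => 24 * μ ^ 2 / a ^ 2) (A μ z y)) = U μ z := by
    ext y; simp [U]
  rw [h1] at h
  have h2 : deriv (fun a : ℝ => 24 * μ ^ 2 / a ^ 2) (A μ z x)
      = -(48 * μ ^ 2) / A μ z x ^ 3 := by
    have h3 : HasDerivAt (fun a : ℝ => 24 * μ ^ 2 / a ^ 2)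
        ((0 * (A μ z x) ^ 2 - 24 * μ ^ 2 * (((2 : ℕ) : ℝ) * (A μ z x) ^ (2 - 1)))
          / ((A μ z x) ^ 2) ^ 2) (A μ z x) :=
      (hasDerivAt_const _ _).div (hasDerivAt_pow 2 _) (by positivity)
    rw [h3.deriv]
    field_simp
    ring
  rw [h, h2, Real.norm_eq_abs, abs_mul, abs_mul]
  have hin := abs_real_inner_le_norm (x - z) v
  have hxz : ‖x - z‖ ≤ √(A μ z x) := by
    apply Real.le_sqrt_of_sq_le
    unfold A; nlinarith [sq_nonneg μ]
  rw [abs_div, abs_neg, abs_of_nonneg (by positivity : 0 ≤ 48 * μ ^ 2),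
    abs_of_pos (by positivity : 0 < A μ z x ^ 3), abs_of_pos (by norm_num : (0:ℝ) < 2)]
  calc 48 * μ ^ 2 / A μ z x ^ 3 * (2 * |inner ℝ (x - z) v|)
      ≤ 48 * μ ^ 2 / A μ z x ^ 3 * (2 * (√(A μ z x) * ‖v‖)) := by
        apply mul_le_mul_of_nonneg_left _ (by positivity)
        apply mul_le_mul_of_nonneg_left _ (by norm_num)
        exact le_trans hin (mul_le_mul_of_nonneg_right hxz (norm_nonneg _))
    _ = 4 * U μ z x / √(A μ z x) * ‖v‖ := by
        unfold U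
        have hs2 : A μ z x = √(A μ z x) ^ 2 := (Real.sq_sqrt hA.le).symm
        generalize √(A μ z x) = s at hs hs2 ⊢
        rw [hs2]
        field_simp
        ring

theorem eb1 : ∀ (k : ℕ) (Λ R C3 : ℝ), ∃ C : ℝ, 0 < C ∧ ∀ τ : ℝ, 0 < τ → τ ≤ 1 / 64 →
    ∃ ω0 : ℝ, 0 < ω0 ∧ ∀ (ω : ℝ) (p : E) (u : E → ℝ) (lam : ℝ) (mu : ℕ → ℝ) (z : ℕ → E)
      (sg : ℕ → ℝ) (ρ : ℝ), ω ≤ ω0 → Conf k Λ R C3 τ ω p u lam mu z sg → Rho1 k τ mu z ρ →
      |ee u lam (z 1) ρ (z 1) - sg 0 * tt mu z| ≤ C * (1 + τ * tt mu z) ∧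
      ∀ x ∈ closedBall (z 1) (2 * ρ),
        ‖fderiv ℝ (ee u lam (z 1) ρ) x - sg 0 • fderiv ℝ (U (mu 0) (z 0)) x‖
          ≤ C * (τ * (1 + tt mu z) + (mu 0 / DD mu z) ^ 2) / DD mu z ∧
        ‖fderiv ℝ (ee u lam (z 1) ρ) x‖ ≤ C * (1 + tt mu z) / DD mu z ∧
        |ee u lam (z 1) ρ x - ee u lam (z 1) ρ (z 1)|
          ≤ C * (1 + tt mu z) / DD mu z * ‖x - z 1‖ := by
  intro k Λ R C3
  by_cases hR : 0 < R
  swap
  · refine ⟨1, one_pos, fun τ _ _ => ⟨1, one_pos, fun ω p u lam mu z sg ρ _ hc _ => ?_⟩⟩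
    exact absurd hc.hR.1 hR
  obtain ⟨Cr, hCr, hrep⟩ := EB_repr1 R hR
  obtain ⟨Ci, hCi, hint⟩ := EB_int_u k Λ R C3
  obtain ⟨Cf, hCf, hfe⟩ := fe1 k Λ R C3
  have hcG := cG_pos
  refine ⟨16 + 4 * cG * Cf * 2 + 2 * Cr * Ci, by positivity, ?_⟩
  intro τ hτ0 hτ1
  obtain ⟨w1, hw1, hfe'⟩ := hfe τ hτ0 hτ1
  refine ⟨min w1 (τ / 3), by positivity, ?_⟩
  intro ω p u lam mu z sg ρ hω hc hr
  have hω1 : ω ≤ w1 := le_trans hω (min_le_left _ _)
  have hω2 : ω ≤ τ / 3 := le_trans hω (min_le_right _ _)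
  obtain ⟨hD, hD3, hmuD, hdist⟩ := EB_DD_le hc
  have hk := hc.hk
  have hmu0 : 0 < mu 0 := hc.hmu 0 (by omega)
  have hρ := hr.pos
  have hsub := EB_ball1 hc hr
  obtain ⟨h, h1, h2⟩ := hrep k Λ C3 τ ω p u lam mu z sg ρ hc hr
  obtain ⟨_, hI⟩ := hint τ ω p u lam mu z sg hc
  have hfx := hfe' ω p u lam mu z sg ρ hω1 hc hr
  obtain ⟨hq1, hq2⟩ := EB_q1_C1 hc hr
  have ht : 0 ≤ tt mu z := EB_U_nonneg _ _ _
  set t := tt mu z with htdef
  set D := DD mu z with hDdef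
  set a := (mu 0 / D) ^ 2 with hadef
  have ha0 : 0 ≤ a := by positivity
  have ha1 : a ≤ 1 := by
    rw [hadef]; apply pow_le_one₀ (by positivity); rw [div_le_one hD]; exact hmuD
  have hDτ : D ≤ τ := by linarith
  have hsg0 : |sg 0| = 1 := by
    rcases hc.hsg 0 (by omega) with h | h <;> rw [h] <;> norm_num
  have hhb : ∀ x ∈ closedBall (z 1) (2 * ρ), |h x| ≤ Cr * Ci ∧ ‖fderiv ℝ h x‖ ≤ Cr * Ci := by
    intro x hx
    obtain ⟨_, b1, b2⟩ := h2 x (hsub hx)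
    exact ⟨le_trans b1 (mul_le_mul_of_nonneg_left hI hCr.le),
      le_trans b2 (mul_le_mul_of_nonneg_left hI hCr.le)⟩
  have hz1 : z 1 ∈ closedBall (z 1) (2 * ρ) := mem_closedBall_self (by positivity)
  -- the gradient formula
  have hgrad : ∀ x ∈ closedBall (z 1) (2 * ρ), fderiv ℝ (ee u lam (z 1) ρ) x
      = sg 0 • fderiv ℝ (U (mu 0) (z 0)) x + fderiv ℝ (N (q1 R p u lam mu z sg ρ)) x
        + fderiv ℝ h x := by
    intro x hx
    have hx' := hsub hx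
    have e1 : ee u lam (z 1) ρ =ᶠ[𝓝 x] fun y => sg 0 * U (mu 0) (z 0) y
        + N (q1 R p u lam mu z sg ρ) y + h y := by
      filter_upwards [isOpen_ball.mem_nhds hx'] with y hy
      exact h1 y hy
    rw [e1.fderiv_eq]
    have d1 : DifferentiableAt ℝ (U (mu 0) (z 0)) x :=
      (contDiff_U hmu0 (z 0) (n := 1)).contDiffAt.differentiableAt (by norm_num)
    have d2 : DifferentiableAt ℝ (N (q1 R p u lam mu z sg ρ)) x :=
      (contDiff_N _ hq1 hq2).contDiffAt.differentiableAt (by norm_num)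
    have d3 := (h2 x hx').1
    have e2 : HasFDerivAt (fun y => sg 0 * U (mu 0) (z 0) y
        + N (q1 R p u lam mu z sg ρ) y + h y) (sg 0 • fderiv ℝ (U (mu 0) (z 0)) x
        + fderiv ℝ (N (q1 R p u lam mu z sg ρ)) x + fderiv ℝ h x) x :=
      ((d1.hasFDerivAt.const_mul (sg 0)).add d2.hasFDerivAt).add d3.hasFDerivAt
    exact e2.fderiv
  -- potentials
  have hN5 : ∀ x ∈ closedBall (z 1) (2 * ρ), ‖fderiv ℝ (N (q1 R p u lam mu z sg ρ)) x‖
      ≤ 4 * cG * (Cf * (τ * (1 + t) + a) / D) := by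
    intro x hx
    obtain ⟨_, n2, _, _⟩ := N_bounds _ hq1 hq2 x
    refine le_trans n2 ?_
    apply mul_le_mul_of_nonneg_left _ (by positivity)
    exact EB_toReal (hfx x hx).2 (by positivity)
  have hDinv : Cr * Ci ≤ Cr * Ci * (τ * (1 + t) + a) / D := by
    rw [le_div_iff₀ hD]
    apply mul_le_mul_of_nonneg_left _ (by positivity)
    have : τ * t ≥ 0 := by positivity
    have e : τ * (1 + t) = τ + τ * t := by ring
    linarith
  have hmain : ∀ x ∈ closedBall (z 1) (2 * ρ),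
      ‖fderiv ℝ (ee u lam (z 1) ρ) x - sg 0 • fderiv ℝ (U (mu 0) (z 0)) x‖
        ≤ (4 * cG * Cf + Cr * Ci) * (τ * (1 + t) + a) / D := by
    intro x hx
    rw [hgrad x hx]
    have e : sg 0 • fderiv ℝ (U (mu 0) (z 0)) x + fderiv ℝ (N (q1 R p u lam mu z sg ρ)) x
        + fderiv ℝ h x - sg 0 • fderiv ℝ (U (mu 0) (z 0)) x
        = fderiv ℝ (N (q1 R p u lam mu z sg ρ)) x + fderiv ℝ h x := by abel
    rw [e]
    refine le_trans (norm_add_le _ _) ?_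
    have b1 := hN5 x hx
    have b2 := (hhb x hx).2
    have e2 : (4 * cG * Cf + Cr * Ci) * (τ * (1 + t) + a) / D
        = 4 * cG * (Cf * (τ * (1 + t) + a) / D) + Cr * Ci * (τ * (1 + t) + a) / D := by ring
    rw [e2]
    linarith
  have hτa : τ * (1 + t) + a ≤ 2 * (1 + t) := by
    have : τ * (1 + t) ≤ 1 * (1 + t) := mul_le_mul_of_nonneg_right (by linarith) (by positivity)
    linarith
  have hfull : ∀ x ∈ closedBall (z 1) (2 * ρ), ‖fderiv ℝ (ee u lam (z 1) ρ) x‖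
      ≤ (16 + 4 * cG * Cf * 2 + 2 * Cr * Ci) * (1 + t) / D := by
    intro x hx
    have hx1 : ‖x - z 1‖ ≤ D / 32 := by
      have : dist x (z 1) ≤ 2 * ρ := hx
      rw [dist_eq_norm] at this
      have h3 := hr.le
      have : τ * D ≤ 1 / 64 * D := mul_le_mul_of_nonneg_right hτ1 hD.le
      linarith
    have hA1 : A (mu 0) (z 0) (z 1) = D ^ 2 := by
      rw [hDdef]; unfold DD A
      rw [Real.sq_sqrt (by positivity), norm_sub_rev]
    -- lower bound for sqrt A at x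
    have hsA : D / 2 ≤ √(A (mu 0) (z 0) x) := by
      apply Real.le_sqrt_of_sq_le
      have e1 : A (mu 0) (z 0) x = mu 0 ^ 2 + ‖x - z 0‖ ^ 2 := rfl
      have e2 : mu 0 ^ 2 + ‖z 1 - z 0‖ ^ 2 = D ^ 2 := hA1
      have hb : ‖z 1 - z 0‖ ≤ ‖x - z 0‖ + D / 32 := by
        have : z 1 - z 0 = (x - z 0) - (x - z 1) := by abel
        rw [this]; exact le_trans (norm_sub_le _ _) (by linarith)
      rw [e1]
      have h3 : ‖z 1 - z 0‖ ^ 2 ≤ (‖x - z 0‖ + D / 32) ^ 2 :=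
        pow_le_pow_left₀ (norm_nonneg _) hb 2
      nlinarith [norm_nonneg (x - z 0), sq_nonneg (‖x - z 0‖ - D / 32), sq_nonneg (mu 0)]
    have hUx : U (mu 0) (z 0) x ≤ 2 * t := by
      have hApos := A_pos hmu0 (z 0) x
      have e1 : A (mu 0) (z 0) x = mu 0 ^ 2 + ‖x - z 0‖ ^ 2 := rfl
      have e2 : mu 0 ^ 2 + ‖z 1 - z 0‖ ^ 2 = D ^ 2 := hA1
      have hb : ‖z 1 - z 0‖ ≤ ‖x - z 0‖ + D / 32 := by
        have : z 1 - z 0 = (x - z 0) - (x - z 1) := by abel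
        rw [this]; exact le_trans (norm_sub_le _ _) (by linarith)
      have h3 : ‖z 1 - z 0‖ ^ 2 ≤ (‖x - z 0‖ + D / 32) ^ 2 :=
        pow_le_pow_left₀ (norm_nonneg _) hb 2
      have h4 : 3 / 4 * D ^ 2 ≤ A (mu 0) (z 0) x := by
        rw [e1]
        nlinarith [norm_nonneg (x - z 0), sq_nonneg (‖x - z 0‖ - 4 * (D / 32)),
          sq_nonneg (mu 0), sq_nonneg (4 * ‖x - z 0‖ - D / 32)]
      have e3 : t = 24 * mu 0 ^ 2 / (D ^ 2) ^ 2 := by
        rw [htdef]; unfold tt U; rw [hA1]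
      have h5 : U (mu 0) (z 0) x = 24 * mu 0 ^ 2 / A (mu 0) (z 0) x ^ 2 := rfl
      rw [h5, e3, div_le_iff₀ (by positivity)]
      have h6 : (3 / 4 * D ^ 2) ^ 2 ≤ A (mu 0) (z 0) x ^ 2 :=
        pow_le_pow_left₀ (by positivity) h4 2
      have h7 : 2 * (24 * mu 0 ^ 2 / (D ^ 2) ^ 2) * (3 / 4 * D ^ 2) ^ 2 = 27 * mu 0 ^ 2 := by
        field_simp; norm_num
      have h8 : 2 * (24 * mu 0 ^ 2 / (D ^ 2) ^ 2) * (3 / 4 * D ^ 2) ^ 2
          ≤ 2 * (24 * mu 0 ^ 2 / (D ^ 2) ^ 2) * A (mu 0) (z 0) x ^ 2 :=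
        mul_le_mul_of_nonneg_left h6 (by positivity)
      nlinarith [sq_nonneg (mu 0)]
    have hU' : ‖fderiv ℝ (U (mu 0) (z 0)) x‖ ≤ 16 * t / D := by
      refine le_trans (EB_fderiv_U_le hmu0 _ _) ?_
      have hs : 0 < √(A (mu 0) (z 0) x) := Real.sqrt_pos.mpr (A_pos hmu0 _ _)
      rw [div_le_div_iff₀ hs hD]
      calc 4 * U (mu 0) (z 0) x * D ≤ 4 * (2 * t) * D := by
            apply mul_le_mul_of_nonneg_right _ hD.le
            linarith
        _ = 16 * t * (D / 2) := by ring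
        _ ≤ 16 * t * √(A (mu 0) (z 0) x) := mul_le_mul_of_nonneg_left hsA (by positivity)
    have e : fderiv ℝ (ee u lam (z 1) ρ) x = sg 0 • fderiv ℝ (U (mu 0) (z 0)) x
        + (fderiv ℝ (ee u lam (z 1) ρ) x - sg 0 • fderiv ℝ (U (mu 0) (z 0)) x) := by abel
    rw [e]
    refine le_trans (norm_add_le _ _) ?_
    rw [norm_smul, Real.norm_eq_abs, hsg0, one_mul]
    have b1 := hmain x hx
    have b2 : (4 * cG * Cf + Cr * Ci) * (τ * (1 + t) + a) / D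
        ≤ (4 * cG * Cf + Cr * Ci) * (2 * (1 + t)) / D := by
      apply div_le_div_of_nonneg_right _ hD.le
      exact mul_le_mul_of_nonneg_left hτa (by positivity)
    have b3 : 16 * t / D ≤ 16 * (1 + t) / D := by
      apply div_le_div_of_nonneg_right _ hD.le
      linarith
    have e4 : (16 + 4 * cG * Cf * 2 + 2 * Cr * Ci) * (1 + t) / D
        = 16 * (1 + t) / D + (4 * cG * Cf + Cr * Ci) * (2 * (1 + t)) / D := by ring
    rw [e4]
    linarith
  refine ⟨?_, ?_⟩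
  · have e := h1 (z 1) (hsub hz1)
    have e2 : ee u lam (z 1) ρ (z 1) - sg 0 * t = N (q1 R p u lam mu z sg ρ) (z 1) + h (z 1) := by
      rw [e]
      have : U (mu 0) (z 0) (z 1) = t := rfl
      rw [this]; ring
    rw [e2]
    refine le_trans (abs_add_le _ _) ?_
    obtain ⟨n1, _, _, _⟩ := N_bounds _ hq1 hq2 (z 1)
    have b1 : cG * (J 4 (fun y => |q1 R p u lam mu z sg ρ y|) (z 1)).toReal
        ≤ cG * (Cf * (1 + τ * t)) :=
      mul_le_mul_of_nonneg_left (EB_toReal (hfx _ hz1).1 (by positivity)) hcG.le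
    have b2 := (hhb _ hz1).1
    have hτt : 0 ≤ τ * t := by positivity
    have e5 : (16 + 4 * cG * Cf * 2 + 2 * Cr * Ci) * (1 + τ * t)
        = cG * (Cf * (1 + τ * t)) + Cr * Ci
          + (16 * (1 + τ * t) + 7 * (cG * Cf) * (1 + τ * t) + Cr * Ci
            + 2 * (Cr * Ci) * (τ * t)) := by ring
    rw [e5]
    have : 0 ≤ 16 * (1 + τ * t) + 7 * (cG * Cf) * (1 + τ * t) + Cr * Ci
            + 2 * (Cr * Ci) * (τ * t) := by positivity
    linarith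
  · intro x hx
    refine ⟨?_, hfull x hx, ?_⟩
    · refine le_trans (hmain x hx) ?_
      apply div_le_div_of_nonneg_right _ hD.le
      apply mul_le_mul_of_nonneg_right _ (by positivity)
      have : 0 ≤ 16 + 4 * (cG * Cf) + Cr * Ci := by positivity
      linarith
    · have hcd : ContDiff ℝ 1 (ee u lam (z 1) ρ) := by
        obtain ⟨hf, hfc⟩ := EB_chi_nl hc.hu lam (z 1) hρ
        have h5 : ContDiff ℝ 1 u := hc.hu.of_le (by norm_num)
        exact h5.sub (contDiff_N _ hf hfc)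
      have := Convex.norm_image_sub_le_of_norm_fderiv_le (𝕜 := ℝ) (f := ee u lam (z 1) ρ)
        (s := closedBall (z 1) (2 * ρ)) (x := z 1) (y := x)
        (fun y _ => hcd.contDiffAt.differentiableAt (by norm_num)) hfull
        (convex_closedBall _ _) hz1 hx
      rw [Real.norm_eq_abs] at this
      exact this

end Pool.Helper4.BT
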