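import Pool.Agent.Helper4.BT.EB2

namespace Pool.Helper4.BT
open MeasureTheory Metric Set Laplacian InnerProductSpace Filter Topology

theorem EB_src_C1 {u : E → ℝ} (hu : ContDiff ℝ 2 u) (lam : ℝ) (p c : E) {R ρ : ℝ} (hR : 0 < R)
    (hρ : 0 < ρ) :
    ContDiff ℝ 1 (fun y => (chi p (R / 2) y - chi c ρ y) * nl lam (u y)) ∧
    HasCompactSupport (fun y => (chi p (R / 2) y - chi c ρ y) * nl lam (u y)) := by
  obtain ⟨hf, hfc⟩ := EB_chi_nl hu lam c hρ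
  obtain ⟨hg, hgc⟩ := EB_chi_nl hu lam p (show 0 < R / 2 by positivity)
  have e : (fun y => (chi p (R / 2) y - chi c ρ y) * nl lam (u y))
      = fun y => chi p (R / 2) y * nl lam (u y) - chi c ρ y * nl lam (u y) := by
    ext y; ring
  rw [e]
  exact ⟨hg.sub hf, hgc.sub hfc⟩

theorem eb0 : ∀ (k : ℕ) (Λ R C3 : ℝ), ∃ C : ℝ, 0 < C ∧ ∀ τ : ℝ, 0 < τ → τ ≤ 1 / 64 →
    ∃ ω0 : ℝ, 0 < ω0 ∧ ∀ (ω : ℝ) (p : E) (u : E → ℝ) (lam : ℝ) (mu : ℕ → ℝ) (z : ℕ → E)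
      (sg : ℕ → ℝ) (ρ : ℝ), ω ≤ ω0 → Conf k Λ R C3 τ ω p u lam mu z sg → Rho0 k mu z ρ →
      |ee u lam (z 0) ρ (z 0)| ≤ C ∧
      ∀ x ∈ closedBall (z 0) (2 * ρ),
        ‖fderiv ℝ (ee u lam (z 0) ρ) x‖ ≤ C / ρ ∧
        |ee u lam (z 0) ρ x - ee u lam (z 0) ρ (z 0)| ≤ C / ρ * ‖x - z 0‖ := by
  intro k Λ R C3
  by_cases hR : 0 < R
  swap
  · refine ⟨1, one_pos, fun τ _ _ => ⟨1, one_pos, fun ω p u lam mu z sg ρ _ hc _ => ?_⟩⟩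
    exact absurd hc.hR.1 hR
  obtain ⟨Cr, hCr, hrep⟩ := EB_repr0 R hR
  obtain ⟨Ci, hCi, hint⟩ := EB_int_u k Λ R C3
  obtain ⟨Cf, hCf, hfe⟩ := fe0 k Λ R C3
  have hcG := cG_pos
  refine ⟨4 * cG * Cf + Cr * Ci, by positivity, ?_⟩
  intro τ hτ0 hτ1
  obtain ⟨w1, hw1, hfe'⟩ := hfe τ hτ0 hτ1
  refine ⟨min w1 ((R / 64) ^ 2), by positivity, ?_⟩
  intro ω p u lam mu z sg ρ hω hc hr
  have hω1 : ω ≤ w1 := le_trans hω (min_le_left _ _)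
  have hω2 : ω ≤ (R / 64) ^ 2 := le_trans hω (min_le_right _ _)
  obtain ⟨hsub, hρR⟩ := EB_ball0 hc hr hω2
  have hρ := hr.pos
  have hρ1 : ρ ≤ 1 := by have := hc.hR.2; linarith
  obtain ⟨h, h1, h2⟩ := hrep k Λ C3 τ ω p u lam mu z sg hc
  obtain ⟨hI, _⟩ := hint τ ω p u lam mu z sg hc
  have hfx := hfe' ω p u lam mu z sg ρ hω1 hc hr
  obtain ⟨hq1, hq2⟩ := EB_src_C1 hc.hu lam p (z 0) hR hρ
  set q : E → ℝ := fun y => (chi p (R / 2) y - chi (z 0) ρ y) * nl lam (u y) with hq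
  have hhb : ∀ x ∈ closedBall (z 0) (2 * ρ), |h x| ≤ Cr * Ci ∧ ‖fderiv ℝ h x‖ ≤ Cr * Ci := by
    intro x hx
    obtain ⟨_, b1, b2⟩ := h2 x (hsub hx)
    exact ⟨le_trans b1 (mul_le_mul_of_nonneg_left hI hCr.le),
      le_trans b2 (mul_le_mul_of_nonneg_left hI hCr.le)⟩
  have hz0 : z 0 ∈ closedBall (z 0) (2 * ρ) := mem_closedBall_self (by positivity)
  have hfull : ∀ x ∈ closedBall (z 0) (2 * ρ), ‖fderiv ℝ (ee u lam (z 0) ρ) x‖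
      ≤ (4 * cG * Cf + Cr * Ci) / ρ := by
    intro x hx
    have hx' := hsub hx
    have e1 : ee u lam (z 0) ρ =ᶠ[𝓝 x] fun y => N q y + h y := by
      filter_upwards [isOpen_ball.mem_nhds hx'] with y hy
      exact h1 (z 0) ρ hρ y hy
    rw [e1.fderiv_eq]
    have d2 : DifferentiableAt ℝ (N q) x :=
      (contDiff_N _ hq1 hq2).contDiffAt.differentiableAt (by norm_num)
    have d3 := (h2 x hx').1
    have e2 : HasFDerivAt (fun y => N q y + h y) (fderiv ℝ (N q) x + fderiv ℝ h x) x :=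
      d2.hasFDerivAt.add d3.hasFDerivAt
    rw [e2.fderiv]
    refine le_trans (norm_add_le _ _) ?_
    obtain ⟨_, n2, _, _⟩ := N_bounds _ hq1 hq2 x
    have b1 : ‖fderiv ℝ (N q) x‖ ≤ 4 * cG * (Cf / ρ) := by
      refine le_trans n2 ?_
      apply mul_le_mul_of_nonneg_left _ (by positivity)
      exact ENNReal.toReal_le_of_le_ofReal (by positivity) (hfx x hx).2
    have b2 := (hhb x hx).2
    have b3 : Cr * Ci ≤ Cr * Ci / ρ := by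
      rw [le_div_iff₀ hρ]
      have : 0 ≤ Cr * Ci := by positivity
      nlinarith
    have e3 : (4 * cG * Cf + Cr * Ci) / ρ = 4 * cG * (Cf / ρ) + Cr * Ci / ρ := by ring
    rw [e3]
    linarith
  refine ⟨?_, ?_⟩
  · rw [h1 (z 0) ρ hρ (z 0) (hsub hz0)]
    refine le_trans (abs_add_le _ _) ?_
    obtain ⟨n1, _, _, _⟩ := N_bounds _ hq1 hq2 (z 0)
    have b1 : |N q (z 0)| ≤ cG * Cf := by
      refine le_trans n1 ?_
      apply mul_le_mul_of_nonneg_left _ hcG.le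
      exact ENNReal.toReal_le_of_le_ofReal hCf.le (hfx _ hz0).1
    have b2 := (hhb _ hz0).1
    have b3 : 0 ≤ 3 * (cG * Cf) := by positivity
    have b4 : 4 * cG * Cf + Cr * Ci = cG * Cf + Cr * Ci + 3 * (cG * Cf) := by ring
    rw [b4]
    linarith
  · intro x hx
    refine ⟨hfull x hx, ?_⟩
    have hcd : ContDiff ℝ 1 (ee u lam (z 0) ρ) := by
      obtain ⟨hf, hfc⟩ := EB_chi_nl hc.hu lam (z 0) hρ
      have h5 : ContDiff ℝ 1 u := hc.hu.of_le (by norm_num)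
      exact h5.sub (contDiff_N _ hf hfc)
    have := Convex.norm_image_sub_le_of_norm_fderiv_le (𝕜 := ℝ) (f := ee u lam (z 0) ρ)
      (s := closedBall (z 0) (2 * ρ)) (x := z 0) (y := x)
      (fun y _ => hcd.contDiffAt.differentiableAt (by norm_num)) hfull
      (convex_closedBall _ _) hz0 hx
    rw [Real.norm_eq_abs] at this
    exact this

theorem eb01 : ∀ (k : ℕ) (Λ R C3 : ℝ), ∃ C : ℝ, 0 < C ∧ ∀ τ : ℝ, 0 < τ → τ ≤ 1 / 64 →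
    ∃ ω0 : ℝ, 0 < ω0 ∧ ∀ (ω : ℝ) (p : E) (u : E → ℝ) (lam : ℝ) (mu : ℕ → ℝ) (z : ℕ → E)
      (sg : ℕ → ℝ) (ρ1 ρ0 : ℝ), ω ≤ ω0 → Conf k Λ R C3 τ ω p u lam mu z sg →
      Rho1 k τ mu z ρ1 → Rho0 k mu z ρ0 →
      |ee u lam (z 1) ρ1 (z 1) - ee u lam (z 0) ρ0 (z 0)|
        ≤ C * (τ + tt mu z + (mu 0 / DD mu z) ^ 2) := by
  intro k Λ R C3
  by_cases hR : 0 < R
  swap
  · refine ⟨1, one_pos, fun τ _ _ => ⟨1, one_pos, fun ω p u lam mu z sg ρ1 ρ0 _ hc _ => ?_⟩⟩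
    exact absurd hc.hR.1 hR
  obtain ⟨Cr, hCr, hrep⟩ := EB_repr0 R hR
  obtain ⟨Ci, hCi, hint⟩ := EB_int_u k Λ R C3
  obtain ⟨Cf, hCf, hfe⟩ := fe01 k Λ R C3
  refine ⟨Cf + 2 * (Cr * Ci), by positivity, ?_⟩
  intro τ hτ0 hτ1
  obtain ⟨w1, hw1, hfe'⟩ := hfe τ hτ0 hτ1
  refine ⟨min w1 (min ((R / 64) ^ 2) τ), by positivity, ?_⟩
  intro ω p u lam mu z sg ρ1 ρ0 hω hc hr1 hr0
  have hω1 : ω ≤ w1 := le_trans hω (min_le_left _ _)
  have hω2 : ω ≤ (R / 64) ^ 2 := le_trans hω (le_trans (min_le_right _ _) (min_le_left _ _))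
  have hω3 : ω ≤ τ := hc.hω.2
  obtain ⟨hD, hD3, hmuD, hdist⟩ := EB_DD_le hc
  obtain ⟨hsub0, hρR⟩ := EB_ball0 hc hr0 hω2
  have hsub1 := EB_ball1 hc hr1
  have hz0 : z 0 ∈ ball p (R / 4) := hsub0 (mem_closedBall_self (by have := hr0.pos; positivity))
  have hz1 : z 1 ∈ ball p (R / 4) := hsub1 (mem_closedBall_self (by have := hr1.pos; positivity))
  obtain ⟨h, h1, h2⟩ := hrep k Λ C3 τ ω p u lam mu z sg hc
  obtain ⟨hI, _⟩ := hint τ ω p u lam mu z sg hc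
  have hfx := hfe' ω p u lam mu z sg ρ1 ρ0 hω1 hc hr1 hr0
  rw [h1 (z 1) ρ1 hr1.pos (z 1) hz1, h1 (z 0) ρ0 hr0.pos (z 0) hz0]
  have hh : |h (z 1) - h (z 0)| ≤ Cr * Ci * ‖z 1 - z 0‖ := by
    have := Convex.norm_image_sub_le_of_norm_fderiv_le (𝕜 := ℝ) (f := h) (C := Cr * Ci)
      (s := ball p (R / 4)) (x := z 0) (y := z 1)
      (fun y hy => (h2 y hy).1)
      (fun y hy => le_trans (h2 y hy).2.2 (mul_le_mul_of_nonneg_left hI hCr.le))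
      (convex_ball _ _) hz0 hz1
    rw [Real.norm_eq_abs] at this
    exact this
  have hd : ‖z 1 - z 0‖ ≤ 2 * τ := by rw [norm_sub_rev]; linarith
  have ht : 0 ≤ tt mu z := EB_U_nonneg _ _ _
  have ha : 0 ≤ (mu 0 / DD mu z) ^ 2 := by positivity
  have e : N (fun y => (chi p (R / 2) y - chi (z 1) ρ1 y) * nl lam (u y)) (z 1) + h (z 1)
      - (N (fun y => (chi p (R / 2) y - chi (z 0) ρ0 y) * nl lam (u y)) (z 0) + h (z 0))
      = (N (fun y => (chi p (R / 2) y - chi (z 1) ρ1 y) * nl lam (u y)) (z 1)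
        - N (fun y => (chi p (R / 2) y - chi (z 0) ρ0 y) * nl lam (u y)) (z 0))
        + (h (z 1) - h (z 0)) := by ring
  rw [e]
  refine le_trans (abs_add_le _ _) ?_
  have hCC : 0 ≤ Cr * Ci := by positivity
  have b2 : |h (z 1) - h (z 0)| ≤ Cr * Ci * (2 * τ) :=
    le_trans hh (mul_le_mul_of_nonneg_left hd hCC)
  have b3 : (Cf + 2 * (Cr * Ci)) * (τ + tt mu z + (mu 0 / DD mu z) ^ 2)
      = Cf * (τ + tt mu z + (mu 0 / DD mu z) ^ 2) + Cr * Ci * (2 * τ)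
        + 2 * (Cr * Ci) * (tt mu z + (mu 0 / DD mu z) ^ 2) := by ring
  rw [b3]
  have : 0 ≤ 2 * (Cr * Ci) * (tt mu z + (mu 0 / DD mu z) ^ 2) := by positivity
  linarith

end Pool.Helper4.BT
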