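import Pool.Agent.Helper4.BT.Local

namespace Pool.Helper4.BT
open MeasureTheory Metric Set Laplacian InnerProductSpace Filter Topology

/-- Continuous on the whole space, zero outside `Ω`, of class `C²` in `Ω`, with finite Dirichlet
energy. -/
structure Adm6 (Ω : Set E) (v : E → ℝ) : Prop where
  cont : Continuous v
  zero : ∀ x, x ∉ Ω → v x = 0
  smooth : ContDiffOn ℝ 2 v Ω
  energy : IntegrableOn (fun x => ‖fderiv ℝ v x‖ ^ 2) Ω

theorem GL_meas {Ω : Set E} (hΩ : IsOpen Ω) {v : E → ℝ} (h : ContDiffOn ℝ 2 v Ω) :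
    AEStronglyMeasurable (fderiv ℝ v) (volume.restrict Ω) := by
  apply ContinuousOn.aestronglyMeasurable _ hΩ.measurableSet
  exact h.continuousOn_fderiv_of_isOpen hΩ (by norm_num)

theorem GL_memLp {Ω : Set E} (hΩ : IsOpen Ω) {v : E → ℝ} (h : Adm6 Ω v) :
    MemLp (fderiv ℝ v) 2 (volume.restrict Ω) :=
  (memLp_two_iff_integrable_sq_norm (GL_meas hΩ h.smooth)).mpr h.energy

theorem GL_of_memLp {Ω : Set E} (hΩ : IsOpen Ω) {v : E → ℝ} (h1 : Continuous v)
    (h2 : ∀ x, x ∉ Ω → v x = 0) (h3 : ContDiffOn ℝ 2 v Ω)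
    (h4 : MemLp (fderiv ℝ v) 2 (volume.restrict Ω)) : Adm6 Ω v :=
  ⟨h1, h2, h3, (memLp_two_iff_integrable_sq_norm (GL_meas hΩ h3)).mp h4⟩

theorem GL_diff {Ω : Set E} (hΩ : IsOpen Ω) {v : E → ℝ} (h : ContDiffOn ℝ 2 v Ω) {x : E}
    (hx : x ∈ Ω) : DifferentiableAt ℝ v x :=
  (h.contDiffAt (hΩ.mem_nhds hx)).differentiableAt (by norm_num)

theorem GL_sub {Ω : Set E} (hΩ : IsOpen Ω) {f g : E → ℝ} (hf : Adm6 Ω f) (hg : Adm6 Ω g) :
    Adm6 Ω (fun x => f x - g x) := by
  refine GL_of_memLp (v := fun x => f x - g x) hΩ (hf.cont.sub hg.cont) ?_ ?_ ?_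
  · intro x hx
    simp only [hf.zero x hx, hg.zero x hx, sub_zero]
  · exact hf.smooth.sub hg.smooth
  · refine MemLp.ae_eq ?_ ((GL_memLp hΩ hf).sub (GL_memLp hΩ hg))
    filter_upwards [ae_restrict_mem hΩ.measurableSet] with x hx
    exact (fderiv_fun_sub (GL_diff hΩ hf.smooth hx) (GL_diff hΩ hg.smooth hx)).symm

theorem GL_zero {Ω : Set E} : Adm6 Ω (fun _ => (0 : ℝ)) := by
  refine ⟨continuous_const, fun _ _ => rfl, contDiffOn_const, ?_⟩
  simp

theorem GL_add {Ω : Set E} (hΩ : IsOpen Ω) {f g : E → ℝ} (hf : Adm6 Ω f) (hg : Adm6 Ω g) :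
    Adm6 Ω (fun x => f x + g x) := by
  have h := GL_sub hΩ hf (GL_sub hΩ GL_zero hg)
  have e : (fun x => f x - (0 - g x)) = fun x => f x + g x := by
    ext x; ring
  rw [e] at h
  exact h

theorem GL_mul {Ω : Set E} (hΩ : IsOpen Ω) (c : ℝ) {f : E → ℝ} (hf : Adm6 Ω f) :
    Adm6 Ω (fun x => c * f x) := by
  refine GL_of_memLp (v := fun x => c * f x) hΩ (continuous_const.mul hf.cont) ?_ ?_ ?_
  · intro x hx
    simp only [hf.zero x hx, mul_zero]
  · exact contDiffOn_const.mul hf.smooth
  · refine MemLp.ae_eq ?_ ((GL_memLp hΩ hf).const_smul c)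
    filter_upwards [ae_restrict_mem hΩ.measurableSet] with x hx
    exact (fderiv_const_mul (GL_diff hΩ hf.smooth hx) c).symm

theorem GL_sum {Ω : Set E} (hΩ : IsOpen Ω) (s : Finset ℕ) (f : ℕ → E → ℝ)
    (hf : ∀ l ∈ s, Adm6 Ω (f l)) : Adm6 Ω (fun x => ∑ l ∈ s, f l x) := by
  classical
  induction s using Finset.induction_on with
  | empty => simpa using GL_zero
  | insert a s ha ih =>
    have h1 : (fun x => ∑ l ∈ insert a s, f l x) = fun x => f a x + ∑ l ∈ s, f l x := by
      ext x
      rw [Finset.sum_insert ha]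
    rw [h1]
    exact GL_add hΩ (hf a (Finset.mem_insert_self _ _))
      (ih (fun l hl => hf l (Finset.mem_insert_of_mem hl)))

/-- No sign-changing bubble tower on a bounded domain of `ℝ⁶` at a positive parameter. -/
theorem glob (Ω : Set E) (hΩ : IsOpen Ω) (hb : Bornology.IsBounded Ω) (k : ℕ) (hk : 2 ≤ k)
    (lamBar : ℝ) (hlb : 0 < lamBar) (lam : ℕ → ℝ) (hlam : Tendsto lam atTop (𝓝 lamBar))
    (u : ℕ → E → ℝ) (u0 : E → ℝ) (W : ℕ → ℕ → E → ℝ)
    (hu : ∀ n, Adm6 Ω (u n)) (hu0 : Adm6 Ω u0) (hW : ∀ n, ∀ l < k, Adm6 Ω (W n l))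
    (heq : ∀ n, ∀ x ∈ Ω, -(Δ (u n)) x = nl (lam n) (u n x))
    (mu : ℕ → ℕ → ℝ) (z : ℕ → ℕ → E) (sg : ℕ → ℝ)
    (hWeq : ∀ n, ∀ l < k, ∀ x ∈ Ω, (Δ (W n l)) x = (Δ (U (mu n l) (z n l))) x)
    (xi : E) (hxi : xi ∈ Ω)
    (hmu : ∀ n, ∀ l < k, 0 < mu n l)
    (hmu0 : ∀ l < k, Tendsto (fun n => mu n l) atTop (𝓝 0))
    (hsep : ∀ l, l + 1 < k → Tendsto (fun n => mu n (l + 1) / mu n l) atTop (𝓝 0))
    (hz : ∀ l < k, Tendsto (fun n => z n l) atTop (𝓝 xi))
    (hsg : ∀ l < k, sg l = 1 ∨ sg l = -1) (hsg1 : sg 1 = - sg 0)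
    (hclose : Tendsto (fun n => ∫ x in Ω, ‖fderiv ℝ
      (fun y => u n y - u0 y - ∑ l ∈ Finset.range k, sg l * W n l y) x‖ ^ 2) atTop (𝓝 0)) :
    False := by
  obtain ⟨r, hr, hball⟩ := Metric.isOpen_iff.mp hΩ xi hxi
  obtain ⟨Cs, hCs, hsob⟩ := sobolev_L3
  set w : ℕ → E → ℝ := fun n y => u n y - u0 y - ∑ l ∈ Finset.range k, sg l * W n l y with hwdef
  have hwA : ∀ n, Adm6 Ω (w n) := by
    intro n
    apply GL_sub hΩ (GL_sub hΩ (hu n) hu0)
    apply GL_sum hΩ
    intro l hl
    exact GL_mul hΩ _ (hW n l (Finset.mem_range.mp hl))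
  -- `∫ |w|³ → 0`
  have hw3 : Tendsto (fun n => ∫ x, |w n x| ^ 3) atTop (𝓝 0) := by
    have h1 : Tendsto (fun n => (∫ x, |w n x| ^ 3) ^ 2) atTop (𝓝 0) := by
      have h2 : Tendsto (fun n => Cs * (∫ x in Ω, ‖fderiv ℝ (w n) x‖ ^ 2) ^ 3) atTop (𝓝 0) := by
        have h3 := (hclose.pow 3).const_mul Cs
        simpa using h3
      refine squeeze_zero (fun n => sq_nonneg _) (fun n => ?_) h2
      exact hsob Ω (w n) hΩ hb (hwA n).cont (hwA n).zero
        ((hwA n).smooth.of_le (by norm_num)) (hwA n).energy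
    have h2 := h1.sqrt
    rw [Real.sqrt_zero] at h2
    refine h2.congr (fun n => ?_)
    exact Real.sqrt_sq (integral_nonneg (fun x => by positivity))
  have hV := neckV_pos
  -- the bound for the projections
  set b : ℕ → ℝ := fun n => ∑ l ∈ Finset.range k, 24 * mu n l ^ 2 / (r / 2) ^ 4 with hbdef
  have hb0 : Tendsto b atTop (𝓝 0) := by
    have h1 : Tendsto b atTop (𝓝 (∑ l ∈ Finset.range k, (0 : ℝ))) := by
      apply tendsto_finsetSum
      intro l hl
      have h2 := (((hmu0 l (Finset.mem_range.mp hl)).pow 2).const_mul 24).div_const ((r / 2) ^ 4)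
      simpa using h2
    simpa using h1
  have hev : ∀ᶠ n in atTop, ∀ l ∈ Finset.range k, ‖z n l - xi‖ < r / 2 := by
    rw [Filter.eventually_all_finset]
    intro l hl
    have h1 := (hz l (Finset.mem_range.mp hl)).eventually (ball_mem_nhds xi (half_pos hr))
    filter_upwards [h1] with n h2
    rw [dist_eq_norm] at h2
    exact h2
  have hint : Tendsto (fun n => ∫ x in ball xi r,
      |u n x - bubbles k sg (mu n) (z n) x - u0 x| ^ 3) atTop (𝓝 0) := by
    have h1 : Tendsto (fun n => 4 * ((∫ x, |w n x| ^ 3) + b n ^ 3 * (r ^ 6 * neckV)))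
        atTop (𝓝 0) := by
      have h2 := (hw3.add ((hb0.pow 3).mul_const (r ^ 6 * neckV))).const_mul 4
      simpa using h2
    refine squeeze_zero' (Eventually.of_forall (fun n => ?_)) ?_ h1
    · exact integral_nonneg (fun x => by positivity)
    · filter_upwards [hev] with n hn
      have hbc : Continuous (bubbles k sg (mu n) (z n)) := EB_cont_bubbles _ _ (hmu n)
      have hc : Continuous (fun x => |u n x - bubbles k sg (mu n) (z n) x - u0 x| ^ 3) :=
        ((((hu n).cont).sub hbc).sub hu0.cont).abs.pow 3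
      have hwc : Continuous (fun x => |w n x| ^ 3) := ((hwA n).cont.abs).pow 3
      have hws : HasCompactSupport (fun x => |w n x| ^ 3) := by
        have h5 : HasCompactSupport (w n) := by
          have h6 : IsCompact (closure Ω) := hb.isCompact_closure
          apply HasCompactSupport.intro h6
          intro x hx
          exact (hwA n).zero x (fun h => hx (subset_closure h))
        exact h5.comp_left (g := fun t => |t| ^ 3) (by simp)
      have hwi : Integrable (fun x => |w n x| ^ 3) := hwc.integrable_of_hasCompactSupport hws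
      have hpt : ∀ x ∈ ball xi r, |u n x - bubbles k sg (mu n) (z n) x - u0 x| ^ 3
          ≤ 4 * (|w n x| ^ 3 + b n ^ 3) := by
        intro x hx
        have hxΩ := hball hx
        have e1 : u n x - bubbles k sg (mu n) (z n) x - u0 x = w n x
            + ∑ l ∈ Finset.range k, sg l * (W n l x - U (mu n l) (z n l) x) := by
          simp only [hwdef, bubbles]
          have e2 : ∑ l ∈ Finset.range k, sg l * (W n l x - U (mu n l) (z n l) x)
              = ∑ l ∈ Finset.range k, sg l * W n l x
                - ∑ l ∈ Finset.range k, sg l * U (mu n l) (z n l) x := by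
            rw [← Finset.sum_sub_distrib]
            apply Finset.sum_congr rfl
            intro l _
            ring
          rw [e2]
          ring
        rw [e1]
        refine le_trans (LOC_cube _ _) ?_
        have h4 : |∑ l ∈ Finset.range k, sg l * (W n l x - U (mu n l) (z n l) x)| ≤ b n := by
          refine le_trans (Finset.abs_sum_le_sum_abs _ _) ?_
          apply Finset.sum_le_sum
          intro l hl
          have hlk := Finset.mem_range.mp hl
          have hsgl : |sg l| = 1 := by rcases hsg l hlk with h | h <;> rw [h] <;> norm_num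
          rw [abs_mul, hsgl, one_mul, abs_sub_comm]
          have hsub : ball (z n l) (r / 2) ⊆ Ω := by
            refine subset_trans ?_ hball
            intro y hy
            rw [mem_ball, dist_eq_norm] at hy ⊢
            have : y - xi = (y - z n l) + (z n l - xi) := by abel
            rw [this]
            have := hn l hl
            exact lt_of_le_of_lt (norm_add_le _ _) (by linarith)
          exact proj_close Ω hΩ hb (mu n l) (hmu n l hlk) (z n l) (r / 2) (half_pos hr) hsub
            (W n l) (hW n l hlk).cont (hW n l hlk).zero (hW n l hlk).smooth (hWeq n l hlk) x hxΩ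
        have h5 := pow_le_pow_left₀ (abs_nonneg _) h4 3
        linarith
      have hbn : 0 ≤ b n := by
        apply Finset.sum_nonneg
        intro l _
        positivity
      calc ∫ x in ball xi r, |u n x - bubbles k sg (mu n) (z n) x - u0 x| ^ 3
          ≤ ∫ x in ball xi r, 4 * (|w n x| ^ 3 + b n ^ 3) := by
            apply setIntegral_mono_on _ _ measurableSet_ball hpt
            · exact (hc.continuousOn.integrableOn_compact (isCompact_closedBall xi r)).mono_set
                ball_subset_closedBall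
            · apply Integrable.const_mul
              apply (hwi.integrableOn).add
              exact (continuous_const.continuousOn.integrableOn_compact
                (isCompact_closedBall xi r)).mono_set ball_subset_closedBall
        _ = 4 * ((∫ x in ball xi r, |w n x| ^ 3) + ∫ x in ball xi r, b n ^ 3) := by
            rw [integral_const_mul, integral_add hwi.integrableOn
              ((continuous_const.continuousOn.integrableOn_compact
                (isCompact_closedBall xi r)).mono_set ball_subset_closedBall)]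
        _ ≤ 4 * ((∫ x, |w n x| ^ 3) + b n ^ 3 * (r ^ 6 * neckV)) := by
            apply mul_le_mul_of_nonneg_left _ (by norm_num)
            apply add_le_add
            · exact setIntegral_le_integral hwi (Eventually.of_forall (fun x => by positivity))
            · rw [setIntegral_const, smul_eq_mul, mul_comm]
              apply mul_le_mul_of_nonneg_left _ (by positivity)
              rw [← neck_vol xi hr.le]
              exact measureReal_mono ball_subset_closedBall
                (isCompact_closedBall xi r).measure_lt_top.ne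
  exact no_local_tower k hk lamBar hlb xi r hr lam hlam u (fun n => (hu n).cont)
    (fun n => (hu n).smooth.mono hball) (fun n y hy => heq n y (hball hy)) u0 hu0.cont mu z sg hmu
    (hmu0 0 (by omega)) hsep hz hsg hsg1 hint

end Pool.Helper4.BT
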