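import Pool.Agent.Helper4.BT.S2

namespace Pool.Helper4.BT
open MeasureTheory Metric Set Laplacian InnerProductSpace

/-- The second half of the proof: configurations satisfying the pointwise estimate do not
exist. -/
theorem no_conf : ∀ (k : ℕ) (Λ R C3 lmin : ℝ), 0 < lmin → ∃ τ ω0 : ℝ, 0 < τ ∧ τ ≤ 1 / 64 ∧
    0 < ω0 ∧ ∀ (ω : ℝ) (p : E) (u : E → ℝ) (lam : ℝ) (mu : ℕ → ℝ) (z : ℕ → E) (sg : ℕ → ℝ),
      ω ≤ ω0 → lmin ≤ lam → Conf k Λ R C3 τ ω p u lam mu z sg → False := by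
  intro k Λ R C3 lmin hlmin
  obtain ⟨Cb1, hCb1, hbd1⟩ := bd1 k Λ R C3
  obtain ⟨Cb0, hCb0, hbd0⟩ := bd0 k Λ R C3
  obtain ⟨Ce1, hCe1, heb1⟩ := eb1 k Λ R C3
  obtain ⟨Ce0, hCe0, heb0⟩ := eb0 k Λ R C3
  obtain ⟨Ce01, hCe01, heb01⟩ := eb01 k Λ R C3
  obtain ⟨Cd1, hCd1, hdeq1⟩ := deq k Λ Cb1 (Ce1 + 1)
  obtain ⟨Cd0, hCd0, hdeq0⟩ := deq k Λ Cb0 Ce0
  obtain ⟨Ct, hCt, hteq⟩ := teq k Λ Cb1
  obtain ⟨Cm, hCm, hmass⟩ := mass k Λ Cb1
  have hI0 := I0_pos
  obtain ⟨M, hMdef⟩ : ∃ M : ℝ, M = 1 + Ce1 + Ce0 + Ce01 + Cd1 + Cd0 + Ct + Cm + |Λ| := ⟨_, rfl⟩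
  have hΛ0 := abs_nonneg Λ
  have hM1 : 1 ≤ M := by rw [hMdef]; linarith
  have hMe1 : Ce1 ≤ M := by rw [hMdef]; linarith
  have hMe0 : Ce0 ≤ M := by rw [hMdef]; linarith
  have hMe01 : Ce01 ≤ M := by rw [hMdef]; linarith
  have hMd1 : Cd1 ≤ M := by rw [hMdef]; linarith
  have hMd0 : Cd0 ≤ M := by rw [hMdef]; linarith
  have hMt : Ct ≤ M := by rw [hMdef]; linarith
  have hMm : Cm ≤ M := by rw [hMdef]; linarith
  have hMΛ : |Λ| ≤ M := by rw [hMdef]; linarith
  have hM0 : 0 < M := by linarith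
  obtain ⟨B, hBdef⟩ : ∃ B : ℝ, B = 6 * M ^ 2 / I0 := ⟨_, rfl⟩
  have hB0 : 0 < B := by rw [hBdef]; positivity
  obtain ⟨s, hsdef⟩ : ∃ s : ℝ, s = min (1 / 8) (min (I0 / (1254 * M ^ 2)) (min (1 / (2 * M))
      (lmin / (M * (8 + 2 * B))))) := ⟨_, rfl⟩
  have hs0 : 0 < s := by rw [hsdef]; positivity
  have hs1 : s ≤ 1 / 8 := by rw [hsdef]; exact min_le_left _ _
  have hs2 : s ≤ I0 / (1254 * M ^ 2) := by
    rw [hsdef]; exact le_trans (min_le_right _ _) (min_le_left _ _)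
  have hs3 : s ≤ 1 / (2 * M) := by
    rw [hsdef]
    exact le_trans (min_le_right _ _) (le_trans (min_le_right _ _) (min_le_left _ _))
  have hs4 : s ≤ lmin / (M * (8 + 2 * B)) := by
    rw [hsdef]
    exact le_trans (min_le_right _ _) (le_trans (min_le_right _ _) (min_le_right _ _))
  have hs2' : 1254 * M ^ 2 * s ≤ I0 := by
    rw [le_div_iff₀ (by positivity)] at hs2; linarith
  have hs3' : 2 * M * s ≤ 1 := by
    rw [le_div_iff₀ (by positivity)] at hs3; linarith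
  have hs4' : M * (8 + 2 * B) * s ≤ lmin := by
    rw [le_div_iff₀ (by positivity)] at hs4; linarith
  have hBs : B * s ≤ 1 := by
    have : B * s = 6 * M ^ 2 * s / I0 := by rw [hBdef]; ring
    rw [this, div_le_one hI0]
    have : 0 ≤ M ^ 2 * s := by positivity
    linarith
  obtain ⟨τ, hτdef⟩ : ∃ τ : ℝ, τ = s ^ 2 := ⟨_, rfl⟩
  have hτ0 : 0 < τ := by rw [hτdef]; positivity
  have hτ1 : τ ≤ 1 / 64 := by
    rw [hτdef]
    calc s ^ 2 ≤ (1 / 8) ^ 2 := pow_le_pow_left₀ hs0.le hs1 2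
      _ = 1 / 64 := by norm_num
  have hsqrt : √τ = s := by rw [hτdef]; exact Real.sqrt_sq hs0.le
  have hτs : τ ≤ s := by
    rw [hτdef, sq]
    calc s * s ≤ 1 * s := mul_le_mul_of_nonneg_right (by linarith) hs0.le
      _ = s := one_mul s
  obtain ⟨w1, hw1, hbd1'⟩ := hbd1 τ hτ0 hτ1
  obtain ⟨w2, hw2, hbd0'⟩ := hbd0 τ hτ0 hτ1
  obtain ⟨w3, hw3, heb1'⟩ := heb1 τ hτ0 hτ1
  obtain ⟨w4, hw4, heb0'⟩ := heb0 τ hτ0 hτ1
  obtain ⟨w5, hw5, heb01'⟩ := heb01 τ hτ0 hτ1
  obtain ⟨w6, hw6, hrho1⟩ := exists_rho1 k τ hτ0 (by linarith)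
  obtain ⟨ω0, hω0def⟩ : ∃ ω0 : ℝ, ω0 = min w1 (min w2 (min w3 (min w4 (min w5 (min w6
      (min 1 (τ / (|Λ| + 1 + 2 * M)))))))) := ⟨_, rfl⟩
  refine ⟨τ, ω0, hτ0, hτ1, by rw [hω0def]; positivity, ?_⟩
  intro ω p u lam mu z sg hω hlam hc
  have hk2 := hc.hk
  have hω1 : ω ≤ w1 := le_trans hω (by rw [hω0def]; exact min_le_left _ _)
  have hωr1 : ω ≤ min w2 (min w3 (min w4 (min w5 (min w6
      (min 1 (τ / (|Λ| + 1 + 2 * M))))))) := le_trans hω (by rw [hω0def]; exact min_le_right _ _)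
  have hω2 : ω ≤ w2 := le_trans hωr1 (min_le_left _ _)
  have hωr2 := le_trans hωr1 (min_le_right _ _)
  have hω3 : ω ≤ w3 := le_trans hωr2 (min_le_left _ _)
  have hωr3 := le_trans hωr2 (min_le_right _ _)
  have hω4 : ω ≤ w4 := le_trans hωr3 (min_le_left _ _)
  have hωr4 := le_trans hωr3 (min_le_right _ _)
  have hω5 : ω ≤ w5 := le_trans hωr4 (min_le_left _ _)
  have hωr5 := le_trans hωr4 (min_le_right _ _)
  have hω6 : ω ≤ w6 := le_trans hωr5 (min_le_left _ _)
  have hωr6 := le_trans hωr5 (min_le_right _ _)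
  have hω7 : ω ≤ 1 := le_trans hωr6 (min_le_left _ _)
  have hω8 : ω ≤ τ / (|Λ| + 1 + 2 * M) := le_trans hωr6 (min_le_right _ _)
  have hmu0 : 0 < mu 0 := hc.hmu 0 (by omega)
  have hmu1 : 0 < mu 1 := hc.hmu 1 (by omega)
  have hdist : ‖z 0 - z 1‖ ≤ 2 * ω := by
    have h0 := hc.hz 0 (by omega)
    have h1 := hc.hz 1 (by omega)
    have : z 0 - z 1 = (z 0 - p) - (z 1 - p) := by abel
    rw [this]; exact le_trans (norm_sub_le _ _) (by linarith)
  obtain ⟨ρ1, hr1⟩ := hrho1 ω mu z hc.hω.1 hω6 hk2 hc.hmu hc.hmu0 hc.hsep hdist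
  obtain ⟨ρ0, hr0⟩ := exists_rho0 k mu z hmu0
  have hD := DD_pos z hmu0
  have ht := tt_nonneg mu z
  have hμD := mu0_le_DD z hmu0
  have hb1 := hbd1' ω p u lam mu z sg ρ1 hω1 hc hr1
  have hb0 := hbd0' ω p u lam mu z sg ρ0 hω2 hc hr0
  obtain ⟨he1a, he1⟩ := heb1' ω p u lam mu z sg ρ1 hω3 hc hr1
  obtain ⟨he0a, he0⟩ := heb0' ω p u lam mu z sg ρ0 hω4 hc hr0
  have he01 := heb01' ω p u lam mu z sg ρ1 ρ0 hω5 hc hr1 hr0
  have hsg0 : sg 0 = 1 ∨ sg 0 = -1 := hc.hsg 0 (by omega)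
  have habs0 : |sg 0| = 1 := by rcases hsg0 with h | h <;> rw [h] <;> norm_num
  have hsq0 : sg 0 * sg 0 = 1 := by rcases hsg0 with h | h <;> rw [h] <;> norm_num
  set t := tt mu z with htdef
  set D := DD mu z with hDdef
  set e1 := ee u lam (z 1) ρ1 (z 1) with he1def
  set e0 := ee u lam (z 0) ρ0 (z 0) with he0def
  have hρ1 := hr1.pos
  have hρ0 := hr0.pos
  have hτt : τ * t ≤ t := by
    calc τ * t ≤ 1 * t := mul_le_mul_of_nonneg_right (by linarith) ht
      _ = t := one_mul t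
  -- the equation at the second bubble
  have hdeqA : |2 * sg 1 * e1 + lam| ≤ Cd1 * √τ * (1 + t) := by
    apply hdeq1 τ u lam (z 1) (mu 1) ρ1 (1 + t) (sg 1) _ mu z hb1 (Ce1 * (1 + t) / D)
      (by positivity)
    · have : Ce1 * (1 + t) / D * ρ1 ≤ Ce1 * (1 + t) / D * (τ * D) :=
        mul_le_mul_of_nonneg_left hr1.le (by positivity)
      have e : Ce1 * (1 + t) / D * (τ * D) = τ * (Ce1 * (1 + t)) := by field_simp
      have h2 : τ * (Ce1 * (1 + t)) ≤ 1 * (Ce1 * (1 + t)) :=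
        mul_le_mul_of_nonneg_right (by linarith) (by positivity)
      have h3 : (Ce1 + 1) * (1 + t) = Ce1 * (1 + t) + (1 + t) := by ring
      linarith
    · intro x hx
      obtain ⟨_, h2, h3⟩ := he1 x hx
      exact ⟨h3, h2⟩
    · have h1 : |e1| ≤ |sg 0 * t| + |e1 - sg 0 * t| := by
        have := abs_add_le (sg 0 * t) (e1 - sg 0 * t)
        simpa using this
      have h2 : |sg 0 * t| = t := by rw [abs_mul, habs0, one_mul, abs_of_nonneg ht]
      have h3 : Ce1 * (1 + τ * t) ≤ Ce1 * (1 + t) :=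
        mul_le_mul_of_nonneg_left (by linarith) hCe1.le
      have h4 : (Ce1 + 1) * (1 + t) = Ce1 * (1 + t) + (1 + t) := by ring
      linarith
  rw [hsqrt] at hdeqA
  have hdeqA' : |2 * sg 1 * e1 + lam| ≤ M * s * (1 + t) := by
    refine le_trans hdeqA ?_
    apply mul_le_mul_of_nonneg_right _ (by positivity)
    exact mul_le_mul_of_nonneg_right hMd1 hs0.le
  have he1a' : |e1 - sg 0 * t| ≤ M * (1 + τ * t) :=
    le_trans he1a (mul_le_mul_of_nonneg_right hMe1 (by positivity))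
  have hlamΛ : lam ≤ M := le_trans hc.hlam.2 (le_trans (le_abs_self _) hMΛ)
  have hlam0 := hc.hlam.1
  have habs1 : |sg 1| = 1 := by rw [hc.hsg1, abs_neg, habs0]
  set a := (mu 0 / D) ^ 2 with hadef
  have ha0 : 0 ≤ a := by positivity
  by_cases hreg : a ≤ s
  · -- regime B
    have hteq1 := hteq τ u lam (z 1) (mu 1) ρ1 (1 + t) (sg 1) _ mu z hb1 D (z 0 - z 1) hD
      (dist_le_DD mu z) hr1.up hr1.q2
    obtain ⟨hm1, hm2, hm3, _⟩ := hmass τ u lam (z 1) (mu 1) ρ1 (1 + t) (sg 1) _ mu z hb1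
    have hMs : M * √τ ≤ I0 / 2 := by
      rw [hsqrt]
      have h1 : M * s ≤ M ^ 2 * s := mul_le_mul_of_nonneg_right (by
        calc M = M * 1 := (mul_one M).symm
          _ ≤ M * M := mul_le_mul_of_nonneg_left hM1 hM0.le
          _ = M ^ 2 := by ring) hs0.le
      have h2 : 0 ≤ M ^ 2 * s := by positivity
      linarith
    have key := tbound (M := M) hc hr1 hM1 (fun x hx => by
        refine le_trans (he1 x hx).1 ?_
        apply div_le_div_of_nonneg_right _ hD.le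
        exact mul_le_mul_of_nonneg_right hMe1 (by positivity))
      (le_trans hteq1 (by
        apply mul_le_mul_of_nonneg_right _ (by positivity)
        apply mul_le_mul_of_nonneg_right _ (by positivity)
        exact mul_le_mul_of_nonneg_right hMt hτ0.le))
      (le_trans hm1 (mul_le_mul_of_nonneg_right hMm (by positivity)))
      (le_trans hm2 (by
        apply mul_le_mul_of_nonneg_right _ (by positivity)
        apply mul_le_mul_of_nonneg_right _ hρ1.le
        exact mul_le_mul_of_nonneg_right hMm (by positivity)))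
      (le_trans hm3 (by
        apply mul_le_mul_of_nonneg_right _ (by positivity)
        exact mul_le_mul_of_nonneg_right hMm (by positivity)))
      hMs
    rw [hsqrt] at key
    change 2 * I0 * t * (‖z 0 - z 1‖ ^ 2 / D ^ 2)
      ≤ M * τ * (1 + t) + M ^ 2 * (τ * (1 + t) + a) + 625 * M * s * τ * t at key
    have hdD : ‖z 0 - z 1‖ ^ 2 / D ^ 2 = 1 - a := by
      have h1 : ‖z 0 - z 1‖ ^ 2 = D ^ 2 - mu 0 ^ 2 := by
        have := DD_sq mu z; rw [← hDdef] at this; linarith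
      rw [h1, hadef, div_pow, sub_div, div_self (by positivity)]
    rw [hdD] at key
    have hhalf : 1 / 2 ≤ 1 - a := by linarith
    have h1 : I0 * t ≤ 2 * I0 * t * (1 - a) := by
      have h2 : 2 * I0 * t * (1 / 2) ≤ 2 * I0 * t * (1 - a) :=
        mul_le_mul_of_nonneg_left hhalf (by positivity)
      linarith
    have hMM : M ≤ M ^ 2 := by
      calc M = M * 1 := (mul_one M).symm
        _ ≤ M * M := mul_le_mul_of_nonneg_left hM1 hM0.le
        _ = M ^ 2 := by ring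
    have hcoef : M * τ * (1 + t) + M ^ 2 * (τ * (1 + t) + a) + 625 * M * s * τ * t
        ≤ 3 * M ^ 2 * s + 627 * M ^ 2 * s * t := by
      have k1 : M * τ * (1 + t) ≤ M ^ 2 * s * (1 + t) := by
        apply mul_le_mul_of_nonneg_right _ (by positivity)
        exact mul_le_mul hMM hτs hτ0.le (by positivity)
      have k2 : M ^ 2 * (τ * (1 + t) + a) ≤ M ^ 2 * (s * (1 + t) + s) := by
        apply mul_le_mul_of_nonneg_left _ (by positivity)
        have : τ * (1 + t) ≤ s * (1 + t) := mul_le_mul_of_nonneg_right hτs (by positivity)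
        linarith
      have k3 : 625 * M * s * τ * t ≤ 625 * M ^ 2 * s * t := by
        apply mul_le_mul_of_nonneg_right _ ht
        calc 625 * M * s * τ ≤ 625 * M * s * 1 :=
              mul_le_mul_of_nonneg_left (by linarith) (by positivity)
          _ ≤ 625 * M ^ 2 * s := by
              have := mul_le_mul_of_nonneg_right hMM hs0.le
              linarith
      have k4 : M ^ 2 * s * (1 + t) + M ^ 2 * (s * (1 + t) + s) + 625 * M ^ 2 * s * t
          = 3 * M ^ 2 * s + 627 * M ^ 2 * s * t := by ring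
      linarith
    have h2 : I0 * t ≤ 3 * M ^ 2 * s + 627 * M ^ 2 * s * t := by linarith
    have h3 : 627 * M ^ 2 * s * t ≤ I0 / 2 * t := mul_le_mul_of_nonneg_right (by linarith) ht
    have h4 : t ≤ B * s := by
      have h5 : I0 * t ≤ 6 * M ^ 2 * s := by linarith
      have h6 : B * s = 6 * M ^ 2 * s / I0 := by rw [hBdef]; ring
      rw [h6, le_div_iff₀ hI0]; linarith
    have ht1 : t ≤ 1 := le_trans h4 hBs
    -- the equation at the first bubble
    have hdeqB : |2 * sg 0 * e0 + lam| ≤ Cd0 * √τ * 1 := by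
      apply hdeq0 τ u lam (z 0) (mu 0) ρ0 1 (sg 0) _ mu z hb0 (Ce0 / ρ0) (by positivity)
      · rw [div_mul_cancel₀ _ hρ0.ne', mul_one]
      · intro x hx
        obtain ⟨h2, h3⟩ := he0 x hx
        exact ⟨h3, h2⟩
      · rw [mul_one]; exact he0a
    rw [hsqrt, mul_one] at hdeqB
    have hdeqB' : |2 * sg 0 * e0 + lam| ≤ M * s :=
      le_trans hdeqB (mul_le_mul_of_nonneg_right hMd0 hs0.le)
    have he01' : |e1 - e0| ≤ M * (τ + t + a) :=
      le_trans he01 (mul_le_mul_of_nonneg_right hMe01 (by positivity))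
    have e : 2 * lam = (2 * sg 1 * e1 + lam) + (2 * sg 0 * e0 + lam)
        + 2 * sg 0 * (e1 - e0) := by
      rw [hc.hsg1]; ring
    have hx1 : 2 * lam ≤ |2 * sg 1 * e1 + lam| + |2 * sg 0 * e0 + lam| + 2 * |e1 - e0| := by
      have a1 := le_abs_self (2 * sg 1 * e1 + lam)
      have a2 := le_abs_self (2 * sg 0 * e0 + lam)
      have a3 : 2 * sg 0 * (e1 - e0) ≤ 2 * |e1 - e0| := by
        calc 2 * sg 0 * (e1 - e0) ≤ |2 * sg 0 * (e1 - e0)| := le_abs_self _
          _ = 2 * |e1 - e0| := by rw [abs_mul, abs_mul, habs0]; norm_num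
      linarith
    have hx2 : M * s * (1 + t) ≤ M * s * 2 := mul_le_mul_of_nonneg_left (by linarith) (by positivity)
    have hx3 : M * (τ + t + a) ≤ M * (s + B * s + s) :=
      mul_le_mul_of_nonneg_left (by linarith) hM0.le
    have hpos : 0 < M * s := by positivity
    have hexp : M * (8 + 2 * B) * s = 8 * (M * s) + 2 * (M * (B * s)) := by ring
    have hexp2 : M * (s + B * s + s) = 2 * (M * s) + M * (B * s) := by ring
    linarith
  · -- regime A
    push Not at hreg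
    have hsD : s * D ^ 2 < mu 0 ^ 2 := by
      rw [hadef, div_pow, lt_div_iff₀ (by positivity)] at hreg
      linarith
    have htlow : 24 * τ < t * mu 0 ^ 2 := by
      have e : t = 24 * mu 0 ^ 2 / D ^ 4 := tt_eq mu z
      rw [e]
      have : 24 * mu 0 ^ 2 / D ^ 4 * mu 0 ^ 2 = 24 * (mu 0 ^ 2 / D ^ 2) ^ 2 := by
        field_simp
      rw [this, hτdef]
      have h1 : s < mu 0 ^ 2 / D ^ 2 := by
        rw [lt_div_iff₀ (by positivity)]; linarith
      have h2 : s ^ 2 < (mu 0 ^ 2 / D ^ 2) ^ 2 := by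
        apply pow_lt_pow_left₀ h1 hs0.le (by norm_num)
      linarith
    have h1 : 2 * t ≤ 2 * |e1| + 2 * |e1 - sg 0 * t| := by
      have h2 : |sg 0 * t| = t := by rw [abs_mul, habs0, one_mul, abs_of_nonneg ht]
      have h3 : |sg 0 * t| ≤ |e1| + |e1 - sg 0 * t| := by
        have := abs_sub_abs_le_abs_sub (sg 0 * t) e1
        rw [abs_sub_comm] at this
        linarith
      linarith
    have h2 : 2 * |e1| ≤ lam + |2 * sg 1 * e1 + lam| := by
      have h3 : |2 * sg 1 * e1| = 2 * |e1| := by rw [abs_mul, abs_mul, habs1]; norm_num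
      have h4 := abs_sub_abs_le_abs_sub (2 * sg 1 * e1) (-lam)
      rw [abs_neg, abs_of_nonneg hlam0, sub_neg_eq_add, h3] at h4
      linarith
    have hub : t ≤ |Λ| + 1 + 2 * M := by
      have h5 : M * s * (1 + t) ≤ 1 / 2 * (1 + t) :=
        mul_le_mul_of_nonneg_right (by linarith) (by positivity)
      have h6 : M * τ ≤ 1 / 16 := by
        rw [hτdef]
        calc M * s ^ 2 = (M * s) * s := by ring
          _ ≤ (1 / 2) * (1 / 8) := mul_le_mul (by linarith) hs1 hs0.le (by norm_num)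
          _ = 1 / 16 := by norm_num
      have h7 : M * (1 + τ * t) ≤ M + 1 / 16 * t := by
        have : M * τ * t ≤ 1 / 16 * t := mul_le_mul_of_nonneg_right h6 ht
        have e : M * (1 + τ * t) = M + M * τ * t := by ring
        linarith
      have h8 : lam ≤ |Λ| := le_trans hc.hlam.2 (le_abs_self _)
      linarith
    have hmuω : mu 0 ^ 2 ≤ ω := by
      have := hc.hmu0
      calc mu 0 ^ 2 = mu 0 * mu 0 := by ring
        _ ≤ 1 * mu 0 := mul_le_mul_of_nonneg_right (by linarith) hmu0.le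
        _ ≤ ω := by linarith
    have h9 : t * mu 0 ^ 2 ≤ (|Λ| + 1 + 2 * M) * ω :=
      mul_le_mul hub hmuω (by positivity) (by positivity)
    have h10 : (|Λ| + 1 + 2 * M) * ω ≤ τ := by
      rw [le_div_iff₀ (by positivity)] at hω8; linarith
    linarith

end Pool.Helper4.BT
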