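import Pool.Agent.Helper4.BT.Star
import Pool.Agent.Helper4.BT.S2b

namespace Pool.Helper4.BT
open MeasureTheory Metric Set Laplacian InnerProductSpace Filter Topology

theorem LOC_cube (a b : ℝ) : |a + b| ^ 3 ≤ 4 * (|a| ^ 3 + |b| ^ 3) := by
  have h1 : |a + b| ^ 3 ≤ (|a| + |b|) ^ 3 := pow_le_pow_left₀ (abs_nonneg _) (abs_add_le _ _) 3
  have ha := abs_nonneg a
  have hb := abs_nonneg b
  nlinarith [mul_nonneg (add_nonneg ha hb) (sq_nonneg (|a| - |b|))]

/-- `f² ≤ b² + |f|³ / b` -/
theorem LOC_sq (f b : ℝ) (hb : 0 < b) : f ^ 2 ≤ b ^ 2 + |f| ^ 3 / b := by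
  rw [← sq_abs]
  rcases le_total |f| b with h | h
  · have h1 : |f| ^ 2 ≤ b ^ 2 := pow_le_pow_left₀ (abs_nonneg _) h 2
    have h2 : 0 ≤ |f| ^ 3 / b := by positivity
    linarith
  · have h1 : |f| ^ 2 ≤ |f| ^ 3 / b := by
      rw [le_div_iff₀ hb]
      have := mul_le_mul_of_nonneg_left h (sq_nonneg |f|)
      calc |f| ^ 2 * b ≤ |f| ^ 2 * |f| := this
        _ = |f| ^ 3 := by ring
    have : 0 ≤ b ^ 2 := sq_nonneg _
    linarith

/-- the cube of a continuous function, integrated over a small closed ball -/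
theorem LOC_u0 (u0 : E → ℝ) (hu0 : Continuous u0) (M : ℝ) (xi : E) (r : ℝ)
    (hM : ∀ x ∈ ball xi r, |u0 x| ≤ M) (c : E) (s : ℝ) (hs : 0 ≤ s)
    (hsub : closedBall c s ⊆ ball xi r) :
    ∫ x in closedBall c s, |u0 x| ^ 3 ≤ M ^ 3 * (s ^ 6 * neckV) := by
  have hK : IsCompact (closedBall c s) := isCompact_closedBall c s
  calc ∫ x in closedBall c s, |u0 x| ^ 3 ≤ ∫ x in closedBall c s, M ^ 3 := by
        apply setIntegral_mono_on
        · exact ((hu0.abs).pow 3).continuousOn.integrableOn_compact hK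
        · exact continuous_const.continuousOn.integrableOn_compact hK
        · exact measurableSet_closedBall
        · intro x hx
          exact pow_le_pow_left₀ (abs_nonneg _) (hM x (hsub hx)) 3
    _ = M ^ 3 * (s ^ 6 * neckV) := by
        rw [setIntegral_const, neck_vol c hs, smul_eq_mul]; ring

/-- The local form: no sign-changing bubble tower concentrates at a point of `ℝ⁶` when the
parameter stays positive. -/
theorem no_local_tower (k : ℕ) (hk : 2 ≤ k) (lamBar : ℝ) (hlb : 0 < lamBar) (xi : E) (r : ℝ)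
    (hr : 0 < r) (lam : ℕ → ℝ) (hlam : Tendsto lam atTop (𝓝 lamBar))
    (u : ℕ → E → ℝ) (hcont : ∀ n, Continuous (u n))
    (hu : ∀ n, ContDiffOn ℝ 2 (u n) (ball xi r))
    (heq : ∀ n, Sol xi r (lam n) (u n))
    (u0 : E → ℝ) (hu0 : Continuous u0)
    (mu : ℕ → ℕ → ℝ) (z : ℕ → ℕ → E) (sg : ℕ → ℝ)
    (hmu : ∀ n, ∀ l < k, 0 < mu n l)
    (hmu0 : Tendsto (fun n => mu n 0) atTop (𝓝 0))
    (hsep : ∀ l, l + 1 < k → Tendsto (fun n => mu n (l + 1) / mu n l) atTop (𝓝 0))
    (hz : ∀ l < k, Tendsto (fun n => z n l) atTop (𝓝 xi))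
    (hsg : ∀ l < k, sg l = 1 ∨ sg l = -1) (hsg1 : sg 1 = - sg 0)
    (hint : Tendsto (fun n => ∫ x in ball xi r,
      |u n x - bubbles k sg (mu n) (z n) x - u0 x| ^ 3) atTop (𝓝 0)) : False := by
  obtain ⟨ε, R1, hε, hR1, hR14, hstar⟩ := star k (by omega) (lamBar + 1)
  have hV := neckV_pos
  -- bound for `u0`
  obtain ⟨M, hM0, hM⟩ : ∃ M : ℝ, 0 ≤ M ∧ ∀ x ∈ closedBall xi r, |u0 x| ≤ M := by
    obtain ⟨M, hM⟩ := (isCompact_closedBall xi r).exists_bound_of_continuousOn hu0.continuousOn
    refine ⟨|M|, abs_nonneg _, fun x hx => ?_⟩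
    have := hM x hx
    rw [Real.norm_eq_abs] at this
    exact le_trans this (le_abs_self _)
  -- choice of `R`
  obtain ⟨R, hRdef⟩ : ∃ R : ℝ, R = min R1 (min (r / 5) (min (1 / 4)
    (ε / (16 * (M ^ 3 * neckV + 1))))) := ⟨_, rfl⟩
  have hR0 : 0 < R := by rw [hRdef]; positivity
  have hRR1 : R ≤ R1 := by rw [hRdef]; exact min_le_left _ _
  have hRr : R ≤ r / 5 := by
    rw [hRdef]; exact le_trans (min_le_right _ _) (min_le_left _ _)
  have hR4 : R ≤ 1 / 4 := by
    rw [hRdef]
    exact le_trans (min_le_right _ _) (le_trans (min_le_right _ _) (min_le_left _ _))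
  have hRε : R ≤ ε / (16 * (M ^ 3 * neckV + 1)) := by
    rw [hRdef]
    exact le_trans (min_le_right _ _) (le_trans (min_le_right _ _) (min_le_right _ _))
  have hMV : 0 ≤ M ^ 3 * neckV := by positivity
  have hRε' : M ^ 3 * ((2 * R) ^ 6 * neckV) ≤ ε / 8 := by
    rw [le_div_iff₀ (by positivity)] at hRε
    have h1 : (2 * R) ^ 6 ≤ 2 * R := by
      have h2R : 2 * R ≤ 1 := by linarith
      calc (2 * R) ^ 6 = (2 * R) ^ 5 * (2 * R) := by ring
        _ ≤ 1 * (2 * R) := by
            apply mul_le_mul_of_nonneg_right _ (by positivity)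
            exact pow_le_one₀ (by positivity) h2R
        _ = 2 * R := one_mul _
    have h2 : M ^ 3 * ((2 * R) ^ 6 * neckV) ≤ M ^ 3 * neckV * (2 * R) := by
      calc M ^ 3 * ((2 * R) ^ 6 * neckV) = M ^ 3 * neckV * (2 * R) ^ 6 := by ring
        _ ≤ M ^ 3 * neckV * (2 * R) := mul_le_mul_of_nonneg_left h1 hMV
    nlinarith
  obtain ⟨C3, τ0, hC3, hτ0, hst⟩ := hstar R hR0 hRR1
  obtain ⟨τ, ω0, hτ, hτ64, hω0, hno⟩ := no_conf k (lamBar + 1) R C3 (lamBar / 2) (by positivity)
  obtain ⟨ω, hωdef⟩ : ∃ ω : ℝ, ω = min ω0 (min τ (R / 64)) := ⟨_, rfl⟩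
  have hω : 0 < ω := by rw [hωdef]; positivity
  have hωω0 : ω ≤ ω0 := by rw [hωdef]; exact min_le_left _ _
  have hωτ : ω ≤ τ := by rw [hωdef]; exact le_trans (min_le_right _ _) (min_le_left _ _)
  have hωR : ω ≤ R / 64 := by rw [hωdef]; exact le_trans (min_le_right _ _) (min_le_right _ _)
  have hω1 : ω ≤ 1 := by linarith
  -- choice of `a`
  obtain ⟨a, hadef⟩ : ∃ a : ℝ, a = min 1 (ω * τ ^ 6 / (2 * (neckV + 1))) := ⟨_, rfl⟩
  have ha : 0 < a := by rw [hadef]; positivity
  have ha1 : a ≤ 1 := by rw [hadef]; exact min_le_left _ _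
  have ha2 : a ≤ ω * τ ^ 6 / (2 * (neckV + 1)) := by rw [hadef]; exact min_le_right _ _
  have ha3 : a ^ 2 * (neckV / τ ^ 6) ≤ ω / 2 := by
    have h1 : a ^ 2 ≤ a := by nlinarith
    rw [le_div_iff₀ (by positivity)] at ha2
    have h2 : a ^ 2 * neckV ≤ ω / 2 * τ ^ 6 := by
      have : a ^ 2 * neckV ≤ a * neckV := mul_le_mul_of_nonneg_right h1 hV.le
      nlinarith
    calc a ^ 2 * (neckV / τ ^ 6) = a ^ 2 * neckV / τ ^ 6 := by ring
      _ ≤ ω / 2 := by rw [div_le_iff₀ (by positivity)]; exact h2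
  -- eventual facts
  have e1 : ∀ᶠ n in atTop, lamBar / 2 ≤ lam n ∧ lam n ≤ lamBar + 1 := by
    have h1 := hlam.eventually (lt_mem_nhds (show lamBar / 2 < lamBar by linarith))
    have h2 := hlam.eventually (gt_mem_nhds (show lamBar < lamBar + 1 by linarith))
    filter_upwards [h1, h2] with n h3 h4
    exact ⟨h3.le, h4.le⟩
  obtain ⟨m0, hm0def⟩ : ∃ m0 : ℝ, m0 = min (min ω τ0) (min (τ * (R / 2))
    (τ * (a * ω / (16 * (M ^ 3 * neckV + 1))))) := ⟨_, rfl⟩
  have hm0 : 0 < m0 := by rw [hm0def]; positivity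
  have hm0ω : m0 ≤ ω := by rw [hm0def]; exact le_trans (min_le_left _ _) (min_le_left _ _)
  have hm0τ0 : m0 ≤ τ0 := by rw [hm0def]; exact le_trans (min_le_left _ _) (min_le_right _ _)
  have hm0R : m0 ≤ τ * (R / 2) := by
    rw [hm0def]; exact le_trans (min_le_right _ _) (min_le_left _ _)
  have hm0a : m0 ≤ τ * (a * ω / (16 * (M ^ 3 * neckV + 1))) := by
    rw [hm0def]; exact le_trans (min_le_right _ _) (min_le_right _ _)
  have e2 : ∀ᶠ n in atTop, mu n 0 ≤ m0 := by
    filter_upwards [hmu0.eventually (gt_mem_nhds hm0)] with n h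
    exact h.le
  have e3 : ∀ᶠ n in atTop, ∀ l ∈ Finset.range k, ‖z n l - xi‖ ≤ ω := by
    rw [Filter.eventually_all_finset]
    intro l hl
    have h1 := (hz l (Finset.mem_range.mp hl)).eventually (ball_mem_nhds xi hω)
    filter_upwards [h1] with n h2
    rw [dist_eq_norm] at h2
    exact h2.le
  have e4 : ∀ᶠ n in atTop, ∀ l ∈ Finset.range (k - 1), mu n (l + 1) / mu n l ≤ ω := by
    rw [Filter.eventually_all_finset]
    intro l hl
    have h1 := (hsep l (by have := Finset.mem_range.mp hl; omega)).eventually (gt_mem_nhds hω)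
    filter_upwards [h1] with n h2
    exact h2.le
  obtain ⟨δ, hδdef⟩ : ∃ δ : ℝ, δ = min (ε / 8) (a * ω / 16) := ⟨_, rfl⟩
  have hδ : 0 < δ := by rw [hδdef]; positivity
  have hδε : δ ≤ ε / 8 := by rw [hδdef]; exact min_le_left _ _
  have hδa : δ ≤ a * ω / 16 := by rw [hδdef]; exact min_le_right _ _
  have e5 : ∀ᶠ n in atTop, ∫ x in ball xi r,
      |u n x - bubbles k sg (mu n) (z n) x - u0 x| ^ 3 ≤ δ := by
    filter_upwards [hint.eventually (gt_mem_nhds hδ)] with n h
    exact h.le
  obtain ⟨n, ⟨hl1, hl2⟩, hm, hzn, hratio, hI⟩ := (e1.and (e2.and (e3.and (e4.and e5)))).exists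
  -- the cut off function
  have hlampos : 0 ≤ lam n := by linarith
  have hmun : ∀ l < k, 0 < mu n l := hmu n
  have hznn : ∀ l < k, ‖z n l - xi‖ ≤ ω := fun l hl => hzn l (Finset.mem_range.mpr hl)
  have hstep : ∀ l, l + 1 < k → mu n (l + 1) ≤ ω * mu n l := by
    intro l hl
    have h1 := hratio l (Finset.mem_range.mpr (by omega))
    rw [div_le_iff₀ (hmun l (by omega))] at h1
    exact h1
  have hseps : ∀ l l', l < l' → l' < k → mu n l' ≤ ω * mu n l := by
    intro l l' h1 h2
    induction l', h1 using Nat.le_induction with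
    | base => exact hstep l h2
    | succ m hm ih =>
      have h3 := ih (by omega)
      have h4 := hstep m h2
      have h5 : 0 < mu n m := hmun m (by omega)
      nlinarith
  have hanti : ∀ l l', l ≤ l' → l' < k → mu n l' ≤ mu n l := by
    intro l l' h1 h2
    rcases Nat.eq_or_lt_of_le h1 with h | h
    · rw [h]
    · have h3 := hseps l l' h h2
      have h4 := hmun l (by omega)
      nlinarith
  have hmu0n : ∀ l < k, mu n l ≤ m0 := fun l hl => le_trans (hanti 0 l (Nat.zero_le _) hl) hm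
  set v : E → ℝ := fun x => chi xi (2 * R) x * u n x with hvdef
  have h5R : closedBall xi (4 * R) ⊆ ball xi r := by
    intro x hx
    rw [mem_closedBall] at hx
    rw [mem_ball]
    linarith
  have h2R : ball xi (2 * R) ⊆ ball xi r := by
    intro x hx
    rw [mem_ball] at hx ⊢
    linarith
  have hv2 : ContDiff ℝ 2 v := by
    rw [contDiff_iff_contDiffAt]
    intro x
    by_cases hx : x ∈ ball xi r
    · have h1 : ContDiffAt ℝ 2 (u n) x := (hu n).contDiffAt (isOpen_ball.mem_nhds hx)
      have h2 : ContDiff ℝ ((2 : ℕ∞) : WithTop ℕ∞) (chi xi (2 * R)) := contDiff_chi xi (2 * R)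
      have h3 : ContDiffAt ℝ 2 (chi xi (2 * R)) x := h2.contDiffAt
      exact h3.mul h1
    · have h1 : v =ᶠ[𝓝 x] fun _ => 0 := by
        have h2 : x ∈ (closedBall xi (4 * R))ᶜ := fun h => hx (h5R h)
        filter_upwards [isClosed_closedBall.isOpen_compl.mem_nhds h2] with y hy
        have h3 : 2 * (2 * R) ≤ ‖y - xi‖ := by
          rw [mem_compl_iff, mem_closedBall, dist_eq_norm] at hy
          linarith
        simp only [hvdef]
        rw [chi_eq_zero (by positivity) h3, zero_mul]
      exact contDiffAt_const.congr_of_eventuallyEq h1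
  have hvu : ∀ x, ‖x - xi‖ ≤ 2 * R → v x = u n x := by
    intro x hx
    simp only [hvdef]
    rw [chi_eq_one (by positivity) hx, one_mul]
  have hvsol : Sol xi (2 * R) (lam n) v := by
    intro y hy
    have h1 : v =ᶠ[𝓝 y] u n := by
      filter_upwards [isOpen_ball.mem_nhds hy] with w hw
      apply hvu
      rw [mem_ball, dist_eq_norm] at hw
      exact hw.le
    rw [laplacian_congr_nhds h1 |>.self_of_nhds]
    rw [hvu y (by rw [mem_ball, dist_eq_norm] at hy; exact hy.le)]
    exact heq n y (h2R hy)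
  have hbc : Continuous (bubbles k sg (mu n) (z n)) := EB_cont_bubbles _ _ hmun
  have hwc : Continuous (fun x => |u n x - bubbles k sg (mu n) (z n) x - u0 x| ^ 3) :=
    (((hcont n).sub hbc).sub hu0).abs.pow 3
  have hwi : ∀ c s, IntegrableOn (fun x => |u n x - bubbles k sg (mu n) (z n) x - u0 x| ^ 3)
      (closedBall c s) := fun c s => hwc.continuousOn.integrableOn_compact (isCompact_closedBall c s)
  have hu0i : ∀ c s, IntegrableOn (fun x => |u0 x| ^ 3) (closedBall c s) := fun c s =>
    ((hu0.abs).pow 3).continuousOn.integrableOn_compact (isCompact_closedBall c s)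
  have hfi : ∀ c s, IntegrableOn (fun x => |v x - bubbles k sg (mu n) (z n) x| ^ 3)
      (closedBall c s) := fun c s => ((hv2.continuous.sub hbc).abs.pow
        3).continuousOn.integrableOn_compact (isCompact_closedBall c s)
  -- key estimate on closed balls inside `closedBall xi (2R)`
  have hkey : ∀ (c : E) (s : ℝ), 0 ≤ s → closedBall c s ⊆ closedBall xi (2 * R) →
      ∫ x in closedBall c s, |v x - bubbles k sg (mu n) (z n) x| ^ 3
        ≤ 4 * (δ + M ^ 3 * (s ^ 6 * neckV)) := by
    intro c s hs hcs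
    have hcs' : closedBall c s ⊆ ball xi r := by
      refine subset_trans hcs ?_
      intro x hx
      rw [mem_closedBall] at hx
      rw [mem_ball]
      linarith
    calc ∫ x in closedBall c s, |v x - bubbles k sg (mu n) (z n) x| ^ 3
        ≤ ∫ x in closedBall c s, 4 * (|u n x - bubbles k sg (mu n) (z n) x - u0 x| ^ 3
            + |u0 x| ^ 3) := by
          apply setIntegral_mono_on (hfi c s) (((hwi c s).add (hu0i c s)).const_mul 4)
            measurableSet_closedBall
          intro x hx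
          have h1 := hcs hx
          rw [mem_closedBall, dist_eq_norm] at h1
          rw [hvu x h1]
          have h2 := LOC_cube (u n x - bubbles k sg (mu n) (z n) x - u0 x) (u0 x)
          rw [sub_add_cancel] at h2
          exact h2
      _ = 4 * ((∫ x in closedBall c s, |u n x - bubbles k sg (mu n) (z n) x - u0 x| ^ 3)
            + ∫ x in closedBall c s, |u0 x| ^ 3) := by
          rw [integral_const_mul, integral_add (hwi c s) (hu0i c s)]
      _ ≤ 4 * (δ + M ^ 3 * (s ^ 6 * neckV)) := by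
          apply mul_le_mul_of_nonneg_left _ (by norm_num)
          apply add_le_add
          · refine le_trans ?_ hI
            apply setIntegral_mono_set
            · exact (hwi xi r).mono_set ball_subset_closedBall
            · exact Eventually.of_forall (fun x => by positivity)
            · exact hcs'.eventuallyLE
          · exact LOC_u0 u0 hu0 M xi r (fun x hx => hM x (ball_subset_closedBall hx)) c s hs hcs'
  -- the pointwise estimate
  have hptw : ∀ x ∈ closedBall xi R, |v x| ≤ C3 * (1 + ∑ l ∈ Finset.range k,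
      U (mu n l) (z n l) x) := by
    refine hst xi v (lam n) (mu n) (z n) sg hlampos hl2 hv2 hvsol hmun hanti
      (le_trans hm hm0τ0) (fun l hl => le_trans (hznn l hl) (by linarith)) hsg ?_
    have h1 := hkey xi (2 * R) (by positivity) (subset_refl _)
    have h2 : ∫ x in ball xi (2 * R), |v x - bubbles k sg (mu n) (z n) x| ^ 3
        ≤ ∫ x in closedBall xi (2 * R), |v x - bubbles k sg (mu n) (z n) x| ^ 3 := by
      apply setIntegral_mono_set (hfi _ _)
      · exact Eventually.of_forall (fun x => by positivity)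
      · exact ball_subset_closedBall.eventuallyLE
    linarith
  refine hno ω xi v (lam n) (mu n) (z n) sg hωω0 hl1 ⟨hk, ⟨hR0, by linarith⟩, hC3, ⟨hτ, hτ64⟩,
    ⟨hω, hωτ⟩, hωR, ⟨hlampos, hl2⟩, hv2, fun y hy => hvsol y (ball_subset_ball (by linarith) hy),
    hptw, hmun, le_trans hm hm0ω, hseps, hznn, hsg, hsg1, ?_⟩
  -- the core condition
  intro j hj
  have hjk : j < k := by omega
  have hmj : 0 < mu n j := hmun j hjk
  have hmjm : mu n j ≤ m0 := hmu0n j hjk
  obtain ⟨s, hsdef⟩ : ∃ s : ℝ, s = mu n j / τ := ⟨_, rfl⟩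
  have hs : 0 < s := by rw [hsdef]; positivity
  have hsR : s ≤ R / 2 := by
    rw [hsdef, div_le_iff₀ hτ]; linarith
  have hsa : s ≤ a * ω / (16 * (M ^ 3 * neckV + 1)) := by
    rw [hsdef, div_le_iff₀ hτ]; linarith
  have hmus : mu n j = τ * s := by rw [hsdef]; field_simp
  rw [← hsdef]
  have hsub : closedBall (z n j) s ⊆ closedBall xi (2 * R) := by
    intro x hx
    rw [mem_closedBall, dist_eq_norm] at hx ⊢
    have h1 := hznn j hjk
    have : x - xi = (x - z n j) + (z n j - xi) := by abel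
    rw [this]
    refine le_trans (norm_add_le _ _) ?_
    linarith
  have h1 := hkey (z n j) s hs.le hsub
  have h2 : M ^ 3 * (s ^ 6 * neckV) ≤ a * ω / 16 := by
    have h3 : s ^ 6 ≤ s := by
      have hs1 : s ≤ 1 := by linarith
      calc s ^ 6 = s ^ 5 * s := by ring
        _ ≤ 1 * s := by
            apply mul_le_mul_of_nonneg_right _ hs.le
            exact pow_le_one₀ hs.le hs1
        _ = s := one_mul _
    rw [le_div_iff₀ (by positivity)] at hsa
    have h4 : M ^ 3 * (s ^ 6 * neckV) ≤ M ^ 3 * neckV * s := by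
      calc M ^ 3 * (s ^ 6 * neckV) = M ^ 3 * neckV * s ^ 6 := by ring
        _ ≤ M ^ 3 * neckV * s := mul_le_mul_of_nonneg_left h3 hMV
    nlinarith
  have h3 : ∫ x in closedBall (z n j) s, |v x - bubbles k sg (mu n) (z n) x| ^ 3
      ≤ a * ω / 2 := by linarith
  have hb : 0 < a / mu n j ^ 2 := by positivity
  have hcs : IntegrableOn (fun x => (v x - bubbles k sg (mu n) (z n) x) ^ 2)
      (closedBall (z n j) s) := ((hv2.continuous.sub hbc).pow
        2).continuousOn.integrableOn_compact (isCompact_closedBall _ _)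
  calc ∫ x in closedBall (z n j) s, (v x - bubbles k sg (mu n) (z n) x) ^ 2
      ≤ ∫ x in closedBall (z n j) s, ((a / mu n j ^ 2) ^ 2
          + |v x - bubbles k sg (mu n) (z n) x| ^ 3 / (a / mu n j ^ 2)) := by
        apply setIntegral_mono_on hcs _ measurableSet_closedBall
        · intro x _
          exact LOC_sq _ _ hb
        · exact (continuous_const.continuousOn.integrableOn_compact
            (isCompact_closedBall _ _)).add ((hfi _ _).div_const _)
    _ = (a / mu n j ^ 2) ^ 2 * (s ^ 6 * neckV)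
        + (∫ x in closedBall (z n j) s, |v x - bubbles k sg (mu n) (z n) x| ^ 3)
          / (a / mu n j ^ 2) := by
        rw [integral_add (continuous_const.continuousOn.integrableOn_compact
            (isCompact_closedBall _ _)) ((hfi _ _).div_const _), setIntegral_const,
            neck_vol _ hs.le, smul_eq_mul, integral_div]
        ring
    _ ≤ (a / mu n j ^ 2) ^ 2 * (s ^ 6 * neckV) + a * ω / 2 / (a / mu n j ^ 2) := by
        gcongr
    _ = a ^ 2 * (neckV / τ ^ 6) * mu n j ^ 2 + ω / 2 * mu n j ^ 2 := by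
        rw [hmus]
        field_simp
    _ ≤ ω / 2 * mu n j ^ 2 + ω / 2 * mu n j ^ 2 := by
        gcongr
    _ = ω * mu n j ^ 2 := by ring

end Pool.Helper4.BT
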