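import Pool.Agent.Helper4.BT.Teq

namespace Pool.Helper4.BT
open MeasureTheory Metric Set Laplacian InnerProductSpace

theorem DD_sq (mu : ℕ → ℝ) (z : ℕ → E) : DD mu z ^ 2 = mu 0 ^ 2 + ‖z 0 - z 1‖ ^ 2 := by
  unfold DD; rw [Real.sq_sqrt (by positivity)]

theorem DD_sq' (mu : ℕ → ℝ) (z : ℕ → E) : DD mu z ^ 2 = A (mu 0) (z 0) (z 1) := by
  rw [DD_sq]; unfold A; rw [norm_sub_rev]

theorem DD_pos {mu : ℕ → ℝ} (z : ℕ → E) (h : 0 < mu 0) : 0 < DD mu z := by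
  unfold DD; positivity

theorem tt_eq (mu : ℕ → ℝ) (z : ℕ → E) : tt mu z = 24 * mu 0 ^ 2 / DD mu z ^ 4 := by
  unfold tt U
  rw [← DD_sq']
  ring_nf

theorem tt_nonneg (mu : ℕ → ℝ) (z : ℕ → E) : 0 ≤ tt mu z := by
  rw [tt_eq]; positivity

theorem mu0_le_DD {mu : ℕ → ℝ} (z : ℕ → E) (h : 0 < mu 0) : mu 0 ≤ DD mu z := by
  unfold DD
  apply Real.le_sqrt_of_sq_le
  nlinarith [sq_nonneg ‖z 0 - z 1‖]

theorem dist_le_DD (mu : ℕ → ℝ) (z : ℕ → E) : ‖z 0 - z 1‖ ≤ DD mu z := by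
  unfold DD
  apply Real.le_sqrt_of_sq_le
  nlinarith [sq_nonneg (mu 0)]

/-- Comparison of `A (mu 0) (z 0)` on the ball around `z 1`. -/
theorem A0_compare {k : ℕ} {τ : ℝ} {mu : ℕ → ℝ} {z : ℕ → E} {ρ : ℝ} (hmu0 : 0 < mu 0)
    (hτ : 0 < τ ∧ τ ≤ 1 / 64) (hr : Rho1 k τ mu z ρ) {x : E} (hx : x ∈ closedBall (z 1) (2 * ρ)) :
    A (mu 0) (z 0) (z 1) ≤ 2 * A (mu 0) (z 0) x ∧ A (mu 0) (z 0) x ≤ 2 * A (mu 0) (z 0) (z 1) := by
  have hD := DD_pos z hmu0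
  have hd2 := DD_sq' mu z
  have hρ : ρ ≤ DD mu z / 64 := by
    have h := hr.le
    have : τ * DD mu z ≤ 1 / 64 * DD mu z := mul_le_mul_of_nonneg_right hτ.2 hD.le
    linarith
  have hxn : ‖x - z 1‖ ≤ DD mu z / 32 := by
    have : dist x (z 1) ≤ 2 * ρ := hx
    rw [dist_eq_norm] at this; linarith
  set D := DD mu z with hDdef
  set m := mu 0
  have hr1 : ‖z 1 - z 0‖ ≤ D := by
    rw [norm_sub_rev]; exact dist_le_DD mu z
  have hA1 : A m (z 0) (z 1) = m ^ 2 + ‖z 1 - z 0‖ ^ 2 := rfl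
  have hAx : A m (z 0) x = m ^ 2 + ‖x - z 0‖ ^ 2 := rfl
  have ha : ‖x - z 0‖ ≤ ‖z 1 - z 0‖ + D / 32 := by
    have : x - z 0 = (z 1 - z 0) + (x - z 1) := by abel
    rw [this]; exact le_trans (norm_add_le _ _) (by linarith)
  have hb : ‖z 1 - z 0‖ ≤ ‖x - z 0‖ + D / 32 := by
    have : z 1 - z 0 = (x - z 0) - (x - z 1) := by abel
    rw [this]; exact le_trans (norm_sub_le _ _) (by linarith)
  set r := ‖z 1 - z 0‖
  set y := ‖x - z 0‖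
  have hr0 : 0 ≤ r := norm_nonneg _
  have hy0 : 0 ≤ y := norm_nonneg _
  rw [← hd2] at hA1 ⊢
  rw [hAx]
  have hm : m ^ 2 = D ^ 2 - r ^ 2 := by linarith
  constructor
  · have h1 : r ^ 2 ≤ (y + D / 32) ^ 2 := by
      apply pow_le_pow_left₀ hr0 hb
    nlinarith [sq_nonneg (y - r), sq_nonneg m]
  · have h1 : y ^ 2 ≤ (r + D / 32) ^ 2 := by
      apply pow_le_pow_left₀ hy0 ha
    nlinarith


theorem contDiff_ee {u : E → ℝ} (hu : ContDiff ℝ 2 u) (lam : ℝ) (c : E) {ρ : ℝ} (hρ : 0 < ρ) :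
    ContDiff ℝ 1 (ee u lam c ρ) := by
  have h1 : ContDiff ℝ 1 (fun y => chi c ρ y * nl lam (u y)) := by
    have h2 : ContDiff ℝ ((1 : ℕ∞) : WithTop ℕ∞) (chi c ρ) := contDiff_chi c ρ
    exact h2.mul (contDiff_nl lam u hu)
  have h3 : HasCompactSupport (fun y => chi c ρ y * nl lam (u y)) :=
    (hasCompactSupport_chi c hρ).mul_right
  have h4 := contDiff_N _ h1 h3
  have h5 : ContDiff ℝ 1 u := hu.of_le (by norm_num)
  exact h5.sub h4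

theorem tbound {k : ℕ} {Λ R C3 τ ω : ℝ} {p : E} {u : E → ℝ} {lam : ℝ} {mu : ℕ → ℝ} {z : ℕ → E}
    {sg : ℕ → ℝ} {ρ M : ℝ} (hc : Conf k Λ R C3 τ ω p u lam mu z sg) (hr : Rho1 k τ mu z ρ)
    (hM : 1 ≤ M)
    (heb : ∀ x ∈ closedBall (z 1) (2 * ρ),
        ‖fderiv ℝ (ee u lam (z 1) ρ) x - sg 0 • fderiv ℝ (U (mu 0) (z 0)) x‖
          ≤ M * (τ * (1 + tt mu z) + (mu 0 / DD mu z) ^ 2) / DD mu z)
    (hteq : |∫ x, chi (z 1) ρ x * nl lam (u x) * fderiv ℝ (ee u lam (z 1) ρ) x (z 0 - z 1)|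
      ≤ M * τ * (1 + tt mu z) * mu 1 ^ 2)
    (hm1 : ∫ x in closedBall (z 1) (2 * ρ), |nl lam (u x)| ≤ M * mu 1 ^ 2)
    (hm2 : ∫ x in closedBall (z 1) (2 * ρ), |nl lam (u x)| * ‖x - z 1‖ ≤ M * √τ * ρ * mu 1 ^ 2)
    (hm3 : |(∫ x, chi (z 1) ρ x * nl lam (u x)) - sg 1 * I0 * mu 1 ^ 2| ≤ M * √τ * mu 1 ^ 2)
    (hMs : M * √τ ≤ I0 / 2) :
    2 * I0 * tt mu z * (‖z 0 - z 1‖ ^ 2 / DD mu z ^ 2)
      ≤ M * τ * (1 + tt mu z) + M ^ 2 * (τ * (1 + tt mu z) + (mu 0 / DD mu z) ^ 2)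
        + 625 * M * √τ * τ * tt mu z := by
  have hk0 : 0 < k := by have := hc.hk; omega
  have hmu0 : 0 < mu 0 := hc.hmu 0 hk0
  have hmu1 : 0 < mu 1 := hc.hmu 1 (by have := hc.hk; omega)
  have hD := DD_pos z hmu0
  have hρ := hr.pos
  have ht := tt_nonneg mu z
  have hI0 := I0_pos
  set D := DD mu z with hDdef
  set t := tt mu z with htdef
  set a := (mu 0 / D) ^ 2 with hadef
  have ha0 : 0 ≤ a := by positivity
  have hτ0 := hc.hτ.1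
  set f : E → ℝ := fun x => chi (z 1) ρ x * nl lam (u x) with hf
  set w : E → ℝ := fun x => nl lam (u x) with hw
  set g : E → ℝ := fun x => fderiv ℝ (ee u lam (z 1) ρ) x (z 0 - z 1) with hg
  set c : ℝ := sg 0 * fderiv ℝ (U (mu 0) (z 0)) (z 1) (z 0 - z 1) with hcdef
  have hsg0 : |sg 0| = 1 := by
    rcases hc.hsg 0 hk0 with h | h <;> rw [h] <;> norm_num
  have hsg1 : |sg 1| = 1 := by
    rcases hc.hsg 1 (by have := hc.hk; omega) with h | h <;> rw [h] <;> norm_num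
  have hcval : c = sg 0 * (4 * t * (‖z 0 - z 1‖ ^ 2 / D ^ 2)) := by
    rw [hcdef, fderiv_U hmu0, ← DD_sq']
    have : inner ℝ (z 1 - z 0) (z 0 - z 1) = -‖z 0 - z 1‖ ^ 2 := by
      have : z 1 - z 0 = -(z 0 - z 1) := by abel
      rw [this, inner_neg_left, real_inner_self_eq_norm_sq]
    rw [this]
    have : U (mu 0) (z 0) (z 1) = t := rfl
    rw [this]
    ring
  have hwc : Continuous w := (contDiff_nl lam u hc.hu).continuous
  have hchic : Continuous (chi (z 1) ρ) := by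
    have h2 : ContDiff ℝ ((1 : ℕ∞) : WithTop ℕ∞) (chi (z 1) ρ) := contDiff_chi (z 1) ρ
    exact h2.continuous
  have hfc : Continuous f := hchic.mul hwc
  have hgc : Continuous g := by
    have h1 := (contDiff_ee hc.hu lam (z 1) hρ).continuous_fderiv (by norm_num)
    exact h1.clm_apply continuous_const
  have hfw : ∀ x, |f x| ≤ |w x| := by
    intro x
    rw [hf, abs_mul, abs_of_nonneg (chi_nonneg _ _ _)]
    calc chi (z 1) ρ x * |nl lam (u x)| ≤ 1 * |nl lam (u x)| :=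
          mul_le_mul_of_nonneg_right (chi_le_one _ _ _) (abs_nonneg _)
      _ = |w x| := by rw [one_mul]
  have hf0 : ∀ x, x ∉ closedBall (z 1) (2 * ρ) → f x = 0 := by
    intro x hx
    have : 2 * ρ ≤ ‖x - z 1‖ := by
      rw [mem_closedBall, dist_eq_norm] at hx; linarith
    rw [hf]; simp only; rw [chi_eq_zero hρ this, zero_mul]
  have hv : ‖z 0 - z 1‖ ≤ D := dist_le_DD mu z
  have hgc' : ∀ x ∈ closedBall (z 1) (2 * ρ),
      |g x - c| ≤ M * (τ * (1 + t) + a) + 625 * t / D * ‖x - z 1‖ := by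
    intro x hx
    have hA := A0_compare hmu0 hc.hτ hr hx
    have h1 : |(fderiv ℝ (ee u lam (z 1) ρ) x - sg 0 • fderiv ℝ (U (mu 0) (z 0)) x) (z 0 - z 1)|
        ≤ M * (τ * (1 + t) + a) := by
      calc |(fderiv ℝ (ee u lam (z 1) ρ) x - sg 0 • fderiv ℝ (U (mu 0) (z 0)) x) (z 0 - z 1)|
          ≤ ‖fderiv ℝ (ee u lam (z 1) ρ) x - sg 0 • fderiv ℝ (U (mu 0) (z 0)) x‖ * ‖z 0 - z 1‖ :=
            by rw [← Real.norm_eq_abs]; exact ContinuousLinearMap.le_opNorm _ _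
        _ ≤ (M * (τ * (1 + t) + a) / D) * D := mul_le_mul (heb x hx) hv (norm_nonneg _)
            (by positivity)
        _ = M * (τ * (1 + t) + a) := by field_simp
    have h2 : |fderiv ℝ (U (mu 0) (z 0)) x (z 0 - z 1)
        - fderiv ℝ (U (mu 0) (z 0)) (z 1) (z 0 - z 1)| ≤ 625 * t / D * ‖x - z 1‖ := by
      refine le_trans (fderiv_U_var hmu0 (z 0) x (z 1) _ hA.1 hA.2) ?_
      rw [← DD_sq', ← hDdef]
      have e : t = 24 * mu 0 ^ 2 / D ^ 4 := tt_eq mu z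
      calc 15000 * mu 0 ^ 2 / (D ^ 2) ^ 3 * ‖x - z 1‖ * ‖z 0 - z 1‖
          ≤ 15000 * mu 0 ^ 2 / (D ^ 2) ^ 3 * ‖x - z 1‖ * D :=
            mul_le_mul_of_nonneg_left hv (by positivity)
        _ = 625 * t / D * ‖x - z 1‖ := by rw [e]; field_simp; ring
    have e : g x - c = (fderiv ℝ (ee u lam (z 1) ρ) x - sg 0 • fderiv ℝ (U (mu 0) (z 0)) x)
        (z 0 - z 1) + sg 0 * (fderiv ℝ (U (mu 0) (z 0)) x (z 0 - z 1)
        - fderiv ℝ (U (mu 0) (z 0)) (z 1) (z 0 - z 1)) := by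
      rw [hg, hcdef]
      simp only [sub_apply, smul_apply, smul_eq_mul]
      ring
    rw [e]
    refine le_trans (abs_add_le _ _) (add_le_add h1 ?_)
    rw [abs_mul, hsg0, one_mul]
    exact h2
  have key := teq_aux f w g (z 1) (2 * ρ) c (M * (τ * (1 + t) + a)) (625 * t / D) hfc hwc hgc hfw
    hf0 (by positivity) (by positivity) hgc'
  have hfint : I0 / 2 * mu 1 ^ 2 ≤ |∫ x, f x| := by
    have h1 : |sg 1 * I0 * mu 1 ^ 2| = I0 * mu 1 ^ 2 := by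
      rw [abs_mul, abs_mul, hsg1, abs_of_pos hI0, abs_of_nonneg (by positivity : 0 ≤ mu 1 ^ 2),
        one_mul]
    have h2 : |sg 1 * I0 * mu 1 ^ 2| ≤ |∫ x, f x| + |(∫ x, f x) - sg 1 * I0 * mu 1 ^ 2| := by
      have := abs_sub_abs_le_abs_sub (sg 1 * I0 * mu 1 ^ 2) (∫ x, f x)
      rw [abs_sub_comm] at this
      linarith
    have h3 : M * √τ * mu 1 ^ 2 ≤ I0 / 2 * mu 1 ^ 2 :=
      mul_le_mul_of_nonneg_right hMs (by positivity)
    have h4 : |(∫ x, f x) - sg 1 * I0 * mu 1 ^ 2| ≤ M * √τ * mu 1 ^ 2 := hm3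
    linarith
  have hlow : 4 * t * (‖z 0 - z 1‖ ^ 2 / D ^ 2) * (I0 / 2 * mu 1 ^ 2) ≤ |c * ∫ x, f x| := by
    rw [abs_mul, hcval, abs_mul, hsg0, one_mul,
      abs_of_nonneg (by positivity : 0 ≤ 4 * t * (‖z 0 - z 1‖ ^ 2 / D ^ 2))]
    exact mul_le_mul_of_nonneg_left hfint (by positivity)
  have hfg : (∫ x, f x * g x) = ∫ x, chi (z 1) ρ x * nl lam (u x) *
      fderiv ℝ (ee u lam (z 1) ρ) x (z 0 - z 1) := rfl
  rw [hfg] at key
  have hb1 : M * (τ * (1 + t) + a) * ∫ x in closedBall (z 1) (2 * ρ), |w x|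
      ≤ M * (τ * (1 + t) + a) * (M * mu 1 ^ 2) :=
    mul_le_mul_of_nonneg_left hm1 (by positivity)
  have hb2 : 625 * t / D * ∫ x in closedBall (z 1) (2 * ρ), |w x| * ‖x - z 1‖
      ≤ 625 * M * √τ * τ * t * mu 1 ^ 2 := by
    calc 625 * t / D * ∫ x in closedBall (z 1) (2 * ρ), |w x| * ‖x - z 1‖
        ≤ 625 * t / D * (M * √τ * ρ * mu 1 ^ 2) := mul_le_mul_of_nonneg_left hm2 (by positivity)
      _ ≤ 625 * t / D * (M * √τ * (τ * D) * mu 1 ^ 2) := by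
          apply mul_le_mul_of_nonneg_left _ (by positivity)
          apply mul_le_mul_of_nonneg_right _ (by positivity)
          apply mul_le_mul_of_nonneg_left hr.le (by positivity)
      _ = 625 * M * √τ * τ * t * mu 1 ^ 2 := by field_simp
  have hfin : 4 * t * (‖z 0 - z 1‖ ^ 2 / D ^ 2) * (I0 / 2 * mu 1 ^ 2)
      ≤ (M * τ * (1 + t) + M ^ 2 * (τ * (1 + t) + a) + 625 * M * √τ * τ * t) * mu 1 ^ 2 := by
    calc _ ≤ |c * ∫ x, f x| := hlow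
      _ ≤ _ := key
      _ ≤ M * τ * (1 + t) * mu 1 ^ 2 + M * (τ * (1 + t) + a) * (M * mu 1 ^ 2)
          + 625 * M * √τ * τ * t * mu 1 ^ 2 := by linarith [hteq]
      _ = _ := by ring
  have hmu1sq : 0 < mu 1 ^ 2 := by positivity
  have : (2 * I0 * t * (‖z 0 - z 1‖ ^ 2 / D ^ 2)) * mu 1 ^ 2
      ≤ (M * τ * (1 + t) + M ^ 2 * (τ * (1 + t) + a) + 625 * M * √τ * τ * t) * mu 1 ^ 2 := by
    calc (2 * I0 * t * (‖z 0 - z 1‖ ^ 2 / D ^ 2)) * mu 1 ^ 2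
        = 4 * t * (‖z 0 - z 1‖ ^ 2 / D ^ 2) * (I0 / 2 * mu 1 ^ 2) := by ring
      _ ≤ _ := hfin
  exact le_of_mul_le_mul_right this hmu1sq

end Pool.Helper4.BT
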