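import Pool.Agent.Helper4.BT.Blk

namespace Pool.Helper4.BT
open MeasureTheory Metric Set Laplacian InnerProductSpace

/-- The pointwise estimate `|u| ≤ C3 (1 + ∑ U_l)` near the concentration point. -/
theorem star : ∀ (k : ℕ) (_ : 1 ≤ k) (Λ : ℝ), ∃ ε R1 : ℝ, 0 < ε ∧ 0 < R1 ∧ R1 ≤ 1 / 4 ∧
    ∀ R : ℝ, 0 < R → R ≤ R1 → ∃ C3 τ0 : ℝ, 1 ≤ C3 ∧ 0 < τ0 ∧
    ∀ (p : E) (u : E → ℝ) (lam : ℝ) (mu : ℕ → ℝ) (z : ℕ → E) (sg : ℕ → ℝ),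
      0 ≤ lam → lam ≤ Λ → ContDiff ℝ 2 u → Sol p (2 * R) lam u →
      (∀ l < k, 0 < mu l) → (∀ l l', l ≤ l' → l' < k → mu l' ≤ mu l) → mu 0 ≤ τ0 →
      (∀ l < k, ‖z l - p‖ ≤ R / 2) → (∀ l < k, sg l = 1 ∨ sg l = -1) →
      ∫ x in ball p (2 * R), |u x - bubbles k sg mu z x| ^ 3 ≤ ε →
      ∀ x ∈ closedBall p R, |u x| ≤ C3 * (1 + ∑ l ∈ Finset.range k, U (mu l) (z l) x) := by
  intro k hk Λ
  obtain ⟨K, C1, ε, R1, hK, hC1, hε, hR1, hR14, hd⟩ := dich k hk Λ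
  refine ⟨ε, R1, hε, hR1, hR14, fun R hR hRR => ?_⟩
  obtain ⟨C, hC, h1⟩ := step1 k hk K C1 (1 / R ^ 2)
  obtain ⟨C3, hC3, h2⟩ := step2 k hk Λ C (1 / R ^ 2)
  have hKpos : 0 < K := by linarith
  refine ⟨C3, R / (4 * K), hC3, by positivity, ?_⟩
  intro p u lam mu z sg hl0 hlΛ hu hsol hmu hanti hmu0 hz hsg hint
  have hKmu : K * mu 0 < R / 2 := by
    have h : K * mu 0 ≤ K * (R / (4 * K)) := mul_le_mul_of_nonneg_left hmu0 hKpos.le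
    have h' : K * (R / (4 * K)) = R / 4 := by field_simp
    linarith
  obtain ⟨hD, hB⟩ := hd p R u lam mu z sg hR hRR hl0 hlΛ hu hsol hmu hanti hKmu hz hsg hint
  have hR4 : R ≤ 1 / 4 := le_trans hRR hR14
  have hsolR : Sol p R lam u := fun y hy => hsol y (ball_subset_ball (by linarith) hy)
  have hmuz : ∀ l < k, 0 < mu l ∧ mu l ≤ 1 / 2 ∧ ‖z l - p‖ ≤ R := by
    intro l hl
    refine ⟨hmu l hl, ?_, ?_⟩
    · have h := hanti 0 l (Nat.zero_le _) hl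
      have h' : R / (4 * K) ≤ 1 / 2 := by
        rw [div_le_iff₀ (by positivity)]; nlinarith
      linarith
    · have := hz l hl; linarith
  exact h2 p R u lam mu z hR hR4 hl0 hlΛ hu hsolR hmuz
    (h1 p R u lam mu z hR hR4 hl0 hu hsolR hmuz hD hB) hB

end Pool.Helper4.BT
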