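import Pool.Agent.Helper4.BT.EB3
import Pool.Agent.Helper4.BT.EB4

namespace Pool.Helper4.BT
open MeasureTheory Metric Set Laplacian InnerProductSpace

theorem teq_aux (f w g : E → ℝ) (c0 : E) (r c α β : ℝ) (hf : Continuous f) (hw : Continuous w)
    (hg : Continuous g) (hfw : ∀ x, |f x| ≤ |w x|) (hf0 : ∀ x, x ∉ closedBall c0 r → f x = 0)
    (hα : 0 ≤ α) (hβ : 0 ≤ β)
    (hgc : ∀ x ∈ closedBall c0 r, |g x - c| ≤ α + β * ‖x - c0‖) :
    |c * ∫ x, f x| ≤ |∫ x, f x * g x| + (α * ∫ x in closedBall c0 r, |w x|)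
      + β * ∫ x in closedBall c0 r, |w x| * ‖x - c0‖ := by
  have hcs : HasCompactSupport f := by
    apply HasCompactSupport.intro (isCompact_closedBall c0 r) hf0
  have hif : Integrable f := hf.integrable_of_hasCompactSupport hcs
  have hifg : Integrable (fun x => f x * g x) :=
    (hf.mul hg).integrable_of_hasCompactSupport hcs.mul_right
  have hifc : Integrable (fun x => f x * (c - g x)) :=
    (hf.mul (continuous_const.sub hg)).integrable_of_hasCompactSupport hcs.mul_right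
  have h1 : c * ∫ x, f x = (∫ x, f x * g x) + ∫ x, f x * (c - g x) := by
    rw [← integral_add hifg hifc, ← integral_const_mul]
    congr 1
    ext x
    ring
  have hK : IsCompact (closedBall c0 r) := isCompact_closedBall c0 r
  have hiw : IntegrableOn (fun x => |w x|) (closedBall c0 r) :=
    (hw.abs).continuousOn.integrableOn_compact hK
  have hiw2 : IntegrableOn (fun x => |w x| * ‖x - c0‖) (closedBall c0 r) :=
    ((hw.abs).mul (continuous_id.sub continuous_const).norm).continuousOn.integrableOn_compact hK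
  have h2 : |∫ x, f x * (c - g x)| ≤ (α * ∫ x in closedBall c0 r, |w x|)
      + β * ∫ x in closedBall c0 r, |w x| * ‖x - c0‖ := by
    have h3 : ∫ x, f x * (c - g x) = ∫ x in closedBall c0 r, f x * (c - g x) := by
      rw [setIntegral_eq_integral_of_forall_compl_eq_zero]
      intro x hx
      rw [hf0 x hx, zero_mul]
    rw [h3, ← integral_const_mul, ← integral_const_mul, ← integral_add (hiw.const_mul α)
      (hiw2.const_mul β)]
    refine le_trans (abs_integral_le_integral_abs) ?_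
    apply setIntegral_mono_on hifc.abs.integrableOn ((hiw.const_mul α).add (hiw2.const_mul β))
      measurableSet_closedBall
    intro x hx
    rw [abs_mul]
    have h4 := hgc x hx
    have h5 : |c - g x| ≤ α + β * ‖x - c0‖ := by rw [abs_sub_comm]; exact h4
    have h6 : |f x| * |c - g x| ≤ |w x| * (α + β * ‖x - c0‖) :=
      mul_le_mul (hfw x) h5 (abs_nonneg _) (abs_nonneg _)
    calc |f x| * |c - g x| ≤ |w x| * (α + β * ‖x - c0‖) := h6
      _ = α * |w x| + β * (|w x| * ‖x - c0‖) := by ring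
  rw [h1]
  calc |(∫ x, f x * g x) + ∫ x, f x * (c - g x)|
      ≤ |∫ x, f x * g x| + |∫ x, f x * (c - g x)| := abs_add_le _ _
    _ ≤ _ := by linarith

theorem fderiv_U {μ : ℝ} (hμ : 0 < μ) (z x v : E) :
    fderiv ℝ (U μ z) x v = -4 * U μ z x / A μ z x * inner ℝ (x - z) v := by
  have hA := A_pos hμ z x
  have h := fderiv_comp_A (fun a => 24 * μ ^ 2 / a ^ 2) μ z x v (by
    apply DifferentiableAt.div (differentiableAt_const _) (by fun_prop)
    positivity)
  have h1 : (fun y => (fun a => 24 * μ ^ 2 / a ^ 2) (A μ z y)) = U μ z := by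
    ext y; simp [U]
  rw [h1] at h
  rw [h]
  have h2 : deriv (fun a : ℝ => 24 * μ ^ 2 / a ^ 2) (A μ z x)
      = -(48 * μ ^ 2) / A μ z x ^ 3 := by
    have h3 : HasDerivAt (fun a : ℝ => 24 * μ ^ 2 / a ^ 2)
        ((0 * (A μ z x) ^ 2 - 24 * μ ^ 2 * (((2 : ℕ) : ℝ) * (A μ z x) ^ (2 - 1)))
          / ((A μ z x) ^ 2) ^ 2) (A μ z x) :=
      (hasDerivAt_const _ _).div (hasDerivAt_pow 2 _) (by positivity)
    rw [h3.deriv]
    field_simp
    ring
  rw [h2]
  unfold U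
  field_simp
  ring

theorem fderiv_U_var {μ : ℝ} (hμ : 0 < μ) (z x y v : E) (h1 : A μ z y ≤ 2 * A μ z x)
    (h2 : A μ z x ≤ 2 * A μ z y) :
    |fderiv ℝ (U μ z) x v - fderiv ℝ (U μ z) y v|
      ≤ 15000 * μ ^ 2 / A μ z y ^ 3 * ‖x - y‖ * ‖v‖ := by
  have hAx := A_pos hμ z x
  have hAy := A_pos hμ z y
  rw [fderiv_U hμ, fderiv_U hμ]
  set a := A μ z x with ha
  set b := A μ z y with hb
  set p := inner ℝ (x - z) v with hp
  set q := inner ℝ (y - z) v with hq
  have hpq : p - q = inner ℝ (x - y) v := by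
    rw [hp, hq, ← inner_sub_left]; congr 1; abel
  have hUx : U μ z x = 24 * μ ^ 2 / a ^ 2 := rfl
  have hUy : U μ z y = 24 * μ ^ 2 / b ^ 2 := rfl
  have e1 : -4 * U μ z x / a * p - -4 * U μ z y / b * q
      = -96 * μ ^ 2 * ((p - q) / a ^ 3 + q * (b - a) * (b ^ 2 + a * b + a ^ 2) / (a ^ 3 * b ^ 3)) := by
    rw [hUx, hUy]; field_simp; ring
  rw [e1]
  have hn1 : |p - q| ≤ ‖x - y‖ * ‖v‖ := by rw [hpq]; exact abs_real_inner_le_norm _ _
  have hq1 : |q| ≤ ‖y - z‖ * ‖v‖ := abs_real_inner_le_norm _ _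
  have hba : |b - a| ≤ ‖x - y‖ * (‖x - z‖ + ‖y - z‖) := by
    have : b - a = (‖y - z‖ - ‖x - z‖) * (‖x - z‖ + ‖y - z‖) := by
      rw [ha, hb]; unfold A; ring
    rw [this, abs_mul, abs_of_nonneg (by positivity : (0:ℝ) ≤ ‖x - z‖ + ‖y - z‖)]
    apply mul_le_mul_of_nonneg_right _ (by positivity)
    have := abs_norm_sub_norm_le (y - z) (x - z)
    have h3 : (y - z) - (x - z) = -(x - y) := by abel
    rw [h3, norm_neg] at this
    exact this
  have hyz : ‖y - z‖ ^ 2 ≤ b := by rw [hb]; unfold A; nlinarith [sq_nonneg μ]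
  have hxz : ‖x - z‖ ^ 2 ≤ a := by rw [ha]; unfold A; nlinarith [sq_nonneg μ]
  have hprod : |q * (b - a)| ≤ 5 / 2 * b * (‖x - y‖ * ‖v‖) := by
    rw [abs_mul]
    calc |q| * |b - a| ≤ (‖y - z‖ * ‖v‖) * (‖x - y‖ * (‖x - z‖ + ‖y - z‖)) :=
          mul_le_mul hq1 hba (abs_nonneg _) (by positivity)
      _ = (‖y - z‖ * ‖x - z‖ + ‖y - z‖ ^ 2) * (‖x - y‖ * ‖v‖) := by ring
      _ ≤ 5 / 2 * b * (‖x - y‖ * ‖v‖) := by
          apply mul_le_mul_of_nonneg_right _ (by positivity)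
          nlinarith [sq_nonneg (‖y - z‖ - ‖x - z‖)]
  set n := ‖x - y‖ * ‖v‖ with hn
  have hn0 : 0 ≤ n := by positivity
  have hterm1 : |(p - q) / a ^ 3| ≤ 8 * n / b ^ 3 := by
    rw [abs_div, abs_of_pos (by positivity : 0 < a ^ 3), div_le_div_iff₀ (by positivity) (by positivity)]
    have h3 : b ^ 3 ≤ 8 * a ^ 3 := by
      calc b ^ 3 ≤ (2 * a) ^ 3 := pow_le_pow_left₀ hAy.le h1 3
        _ = 8 * a ^ 3 := by ring
    calc |p - q| * b ^ 3 ≤ n * (8 * a ^ 3) := mul_le_mul hn1 h3 (by positivity) hn0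
      _ = 8 * n * a ^ 3 := by ring
  have hterm2 : |q * (b - a) * (b ^ 2 + a * b + a ^ 2) / (a ^ 3 * b ^ 3)| ≤ 140 * n / b ^ 3 := by
    rw [abs_div, abs_mul, abs_of_pos (by positivity : 0 < a ^ 3 * b ^ 3),
      abs_of_pos (by positivity : 0 < b ^ 2 + a * b + a ^ 2),
      div_le_div_iff₀ (by positivity) (by positivity)]
    have h4 : b ^ 2 + a * b + a ^ 2 ≤ 7 * b ^ 2 := by nlinarith
    have h3 : b ^ 3 ≤ 8 * a ^ 3 := by
      calc b ^ 3 ≤ (2 * a) ^ 3 := pow_le_pow_left₀ hAy.le h1 3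
        _ = 8 * a ^ 3 := by ring
    calc |q * (b - a)| * (b ^ 2 + a * b + a ^ 2) * b ^ 3
        ≤ (5 / 2 * b * n) * (7 * b ^ 2) * (8 * a ^ 3) := by
          apply mul_le_mul _ h3 (by positivity) (by positivity)
          exact mul_le_mul hprod h4 (by positivity) (by positivity)
      _ = 140 * n * (a ^ 3 * b ^ 3) := by ring
  rw [abs_mul, abs_of_nonpos (by nlinarith [sq_nonneg μ] : -96 * μ ^ 2 ≤ 0)]
  have hsum : |(p - q) / a ^ 3 + q * (b - a) * (b ^ 2 + a * b + a ^ 2) / (a ^ 3 * b ^ 3)|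
      ≤ 148 * n / b ^ 3 := by
    refine le_trans (abs_add_le _ _) ?_
    have : 148 * n / b ^ 3 = 8 * n / b ^ 3 + 140 * n / b ^ 3 := by ring
    rw [this]; exact add_le_add hterm1 hterm2
  calc -(-96 * μ ^ 2) * |(p - q) / a ^ 3 + q * (b - a) * (b ^ 2 + a * b + a ^ 2) / (a ^ 3 * b ^ 3)|
      ≤ -(-96 * μ ^ 2) * (148 * n / b ^ 3) := mul_le_mul_of_nonneg_left hsum (by nlinarith [sq_nonneg μ])
    _ = 14208 * (μ ^ 2 / b ^ 3) * n := by ring
    _ ≤ 15000 * (μ ^ 2 / b ^ 3) * n := by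
        apply mul_le_mul_of_nonneg_right _ hn0
        apply mul_le_mul_of_nonneg_right (by norm_num) (by positivity)
    _ = 15000 * μ ^ 2 / b ^ 3 * ‖x - y‖ * ‖v‖ := by rw [hn]; ring

end Pool.Helper4.BT
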